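import Pool.Agent.H146R3.LocalLattices

/-!
The complete embedding of the lattice of local clones on `X` into the lattice of local
transformation monoids on `Y = {0} ∪ X ∪ X² ∪ X³ ∪ ...`.
-/

namespace Pool.Agent.H146R3

universe u

open Function

/-- The set of all nonempty finite tuples of elements of `X`, together with an extra element. -/
abbrev Tup (X : Type u) : Type u := Option (Σ n : ℕ, (Fin (n + 1) → X))

variable {X : Type u}

/-- The transformation of `Tup X` given by `F` on tuples of length `m + 1`, all other elements are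
mapped to the extra element. -/
def hat {m n : ℕ} (F : (Fin (m + 1) → X) → (Fin (n + 1) → X)) : Tup X → Tup X
  | none => none
  | some ⟨k, w⟩ => if h : k = m then some ⟨n, F (h ▸ w)⟩ else none

@[simp] theorem hat_none {m n : ℕ} (F : (Fin (m + 1) → X) → (Fin (n + 1) → X)) :
    hat F none = none := rfl

@[simp] theorem hat_same {m n : ℕ} (F : (Fin (m + 1) → X) → (Fin (n + 1) → X))
    (w : Fin (m + 1) → X) : hat F (some ⟨m, w⟩) = some ⟨n, F w⟩ := by
  simp [hat]

theorem hat_ne {m n k : ℕ} (F : (Fin (m + 1) → X) → (Fin (n + 1) → X))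
    (w : Fin (k + 1) → X) (h : k ≠ m) : hat F (some ⟨k, w⟩) = none := by
  simp [hat, h]

theorem hat_comp {m n k : ℕ} (G : (Fin (n + 1) → X) → (Fin (k + 1) → X))
    (F : (Fin (m + 1) → X) → (Fin (n + 1) → X)) : hat G ∘ hat F = hat (G ∘ F) := by
  funext y
  match y with
  | none => rfl
  | some ⟨l, w⟩ =>
    by_cases h : l = m
    · subst h
      simp
    · simp [hat_ne _ _ h]

theorem hat_comp_ne {m n k l : ℕ} (G : (Fin (k + 1) → X) → (Fin (l + 1) → X))
    (F : (Fin (m + 1) → X) → (Fin (n + 1) → X)) (hne : n ≠ k) :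
    hat G ∘ hat F = fun _ => none := by
  funext y
  match y with
  | none => rfl
  | some ⟨l, w⟩ =>
    by_cases h : l = m
    · subst h
      simp [hat_ne _ _ hne]
    · simp [hat_ne _ _ h]

/-- The local monoid of a local clone. -/
def toMon (C : LocalClone X) : LocalMonoid (Tup X) where
  carrier := {h | h = id ∨ h = (fun _ => none) ∨
    ∃ (m n : ℕ) (F : (Fin (m + 1) → X) → (Fin (n + 1) → X)),
      (∀ i, (fun w => F w i) ∈ C.carrier m) ∧ h = hat F}
  id_mem := Or.inl rfl
  comp_mem := by
    rintro f g (rfl | rfl | ⟨m, n, F, hF, rfl⟩) hg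
    · exact hg
    · exact Or.inr (Or.inl rfl)
    · rcases hg with (rfl | rfl | ⟨m', n', G, hG, rfl⟩)
      · exact Or.inr (Or.inr ⟨m, n, F, hF, rfl⟩)
      · exact Or.inr (Or.inl rfl)
      · by_cases h : n' = m
        · subst h
          refine Or.inr (Or.inr ⟨m', n, F ∘ G, fun i => ?_, hat_comp F G⟩)
          exact C.comp_mem (hF i) hG
        · exact Or.inr (Or.inl (hat_comp_ne F G h))
  closed := by
    classical
    rw [ptClosed_iff]
    intro h happ
    have hnone : h none = none := by
      obtain ⟨g, hg, hag⟩ := happ {none}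
      rw [← hag none (by simp)]
      rcases hg with (rfl | rfl | ⟨m', n', G, hG, rfl⟩) <;> rfl
    by_cases h0 : h = fun _ => none
    · exact Or.inr (Or.inl h0)
    by_cases h1 : h = id
    · exact Or.inl h1
    obtain ⟨y, hy⟩ : ∃ y, h y ≠ none := by
      by_contra hcon
      push Not at hcon
      exact h0 (funext hcon)
    obtain ⟨z, hz⟩ : ∃ z, h z ≠ z := by
      by_contra hcon
      push Not at hcon
      exact h1 (funext hcon)
    match y, hy with
    | none, hy => exact absurd hnone hy
    | some ⟨m, w⟩, hy =>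
      obtain ⟨⟨n, v⟩, hv⟩ := Option.ne_none_iff_exists'.mp hy
      -- approximants
      have key : ∀ A : Finset (Tup X), ∃ F : (Fin (m + 1) → X) → (Fin (n + 1) → X),
          (∀ i, (fun w => F w i) ∈ C.carrier m) ∧ ∀ a ∈ A, hat F a = h a := by
        intro A
        obtain ⟨g, hg, hag⟩ := happ (insert z (insert (some ⟨m, w⟩) A))
        have hgz := hag z (by simp)
        have hgy := hag (some ⟨m, w⟩) (by simp)
        rcases hg with (rfl | rfl | ⟨m', n', G, hG, rfl⟩)
        · exact absurd hgz.symm hz
        · exact absurd hgy.symm hy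
        · have hm : m = m' := by
            by_contra hcon
            rw [hat_ne _ _ hcon] at hgy
            exact hy hgy.symm
          subst hm
          rw [hat_same, hv] at hgy
          have hn : n' = n := by
            have := Option.some.inj hgy
            exact congrArg Sigma.fst this
          subst hn
          exact ⟨G, hG, fun a ha => hag a (by simp [ha])⟩
      have hex : ∀ w' : Fin (m + 1) → X, ∃ v' : Fin (n + 1) → X,
          h (some ⟨m, w'⟩) = some ⟨n, v'⟩ := by
        intro w'
        obtain ⟨F, _, hF⟩ := key {some ⟨m, w'⟩}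
        exact ⟨F w', by rw [← hF _ (by simp), hat_same]⟩
      choose F hF using hex
      refine Or.inr (Or.inr ⟨m, n, F, fun i => ?_, ?_⟩)
      · apply (ptClosed_iff _).mp (C.closed m)
        intro A
        obtain ⟨G, hG, hGA⟩ := key (A.image (fun w => some ⟨m, w⟩))
        refine ⟨_, hG i, fun a ha => ?_⟩
        have := hGA _ (Finset.mem_image_of_mem _ ha)
        rw [hat_same, hF] at this
        have h2 := Option.some.inj this
        have h3 : G a = F a := by
          simpa using h2
        rw [h3]
      · funext p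
        match p with
        | none => rw [hnone, hat_none]
        | some ⟨k, w'⟩ =>
          by_cases hk : k = m
          · subst hk
            rw [hF, hat_same]
          · rw [hat_ne _ _ hk]
            obtain ⟨G, hG, hGA⟩ := key {some ⟨k, w'⟩}
            rw [← hGA _ (by simp), hat_ne _ _ hk]

theorem mem_toMon {C : LocalClone X} {h : Tup X → Tup X} :
    h ∈ (toMon C).carrier ↔ (h = id ∨ h = (fun _ => none) ∨
    ∃ (m n : ℕ) (F : (Fin (m + 1) → X) → (Fin (n + 1) → X)),
      (∀ i, (fun w => F w i) ∈ C.carrier m) ∧ h = hat F) := Iff.rfl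

theorem hat_mem_toMon [Nonempty X] {C : LocalClone X} {m n : ℕ}
    (F : (Fin (m + 1) → X) → (Fin (n + 1) → X)) :
    hat F ∈ (toMon C).carrier ↔ ∀ i, (fun w => F w i) ∈ C.carrier m := by
  obtain ⟨x0⟩ := ‹Nonempty X›
  constructor
  · rintro (h | h | ⟨m', n', G, hG, h⟩)
    · have := congrFun h (some ⟨m + 1, fun _ => x0⟩)
      rw [hat_ne _ _ (by omega)] at this
      simp at this
    · have := congrFun h (some ⟨m, fun _ => x0⟩)
      rw [hat_same] at this
      simp at this
    · have h1 := congrFun h (some ⟨m, fun _ => x0⟩)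
      have hm : m = m' := by
        by_contra hcon
        rw [hat_same, hat_ne _ _ hcon] at h1
        simp at h1
      subst hm
      have hn : n = n' := by
        rw [hat_same, hat_same] at h1
        exact congrArg Sigma.fst (Option.some.inj h1)
      subst hn
      have hFG : F = G := by
        funext w
        have h2 := congrFun h (some ⟨m, w⟩)
        rw [hat_same, hat_same] at h2
        simpa using h2
      rw [hFG]
      exact hG
  · intro h
    exact Or.inr (Or.inr ⟨m, n, F, h, rfl⟩)

theorem toMon_mono : Monotone (toMon : LocalClone X → LocalMonoid (Tup X)) := by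
  rintro C D hCD f (h | h | ⟨m', n', G, hG, h⟩)
  · exact Or.inl h
  · exact Or.inr (Or.inl h)
  · exact Or.inr (Or.inr ⟨m', n', G, fun i => hCD _ (hG i), h⟩)

theorem toMon_le [Nonempty X] {C D : LocalClone X} (h : toMon C ≤ toMon D) : C ≤ D := by
  intro n f hf
  have h1 : hat (n := 0) (fun w (_ : Fin 1) => f w) ∈ (toMon C).carrier := by
    rw [hat_mem_toMon]
    intro _
    exact hf
  have h2 := h h1
  rw [hat_mem_toMon] at h2
  exact h2 0

/-- The clone used to show that joins are preserved. -/
def backClone (N : LocalMonoid (Tup X))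
    (hN : ∀ (m n : ℕ) (F : (Fin (m + 1) → X) → (Fin (n + 1) → X)),
      (∀ i, ∃ j, ∀ w, F w i = w j) → hat F ∈ N.carrier) : LocalClone X where
  carrier m := {f | ∀ (a : ℕ) (σ : Fin (m + 1) → Fin (a + 1)),
    hat (n := a + 1) (fun w => (Fin.cons (f (w ∘ σ)) w : Fin (a + 1 + 1) → X)) ∈ N.carrier}
  proj_mem := by
    intro m i a σ
    apply hN
    intro l
    refine Fin.cases ?_ (fun l => ?_) l
    · exact ⟨σ i, fun w => rfl⟩
    · exact ⟨l, fun w => rfl⟩
  comp_mem := by
    intro n m f g hf hg a σ
    have P : ∀ (k : ℕ) (G : Fin k → Op X m), (∀ i, ∀ (a : ℕ) (σ : Fin (m + 1) → Fin (a + 1)),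
        hat (n := a + 1) (fun w => (Fin.cons (G i (w ∘ σ)) w : Fin (a + 1 + 1) → X)) ∈ N.carrier) →
        ∃ (b : ℕ) (H : (Fin (a + 1) → X) → (Fin (b + 1) → X)), hat H ∈ N.carrier ∧
          ∃ (τ : Fin k → Fin (b + 1)) (ρ : Fin (a + 1) → Fin (b + 1)),
            ∀ w, (∀ i, H w (τ i) = G i (w ∘ σ)) ∧ (∀ j, H w (ρ j) = w j) := by
      intro k
      induction k with
      | zero =>
        intro G _
        exact ⟨a, id, hN _ _ _ (fun i => ⟨i, fun w => rfl⟩), Fin.elim0, id,
          fun w => ⟨fun i => i.elim0, fun j => rfl⟩⟩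
      | succ k ih =>
        intro G hG
        obtain ⟨b, H, hH, τ, ρ, hτρ⟩ := ih (fun i => G i.succ) (fun i => hG i.succ)
        have h0 := hG 0 b (ρ ∘ σ)
        refine ⟨b + 1, fun w => (Fin.cons (G 0 (H w ∘ (ρ ∘ σ))) (H w) : Fin (b + 1 + 1) → X), ?_,
          Fin.cases 0 (fun i => (τ i).succ), fun j => (ρ j).succ, fun w => ⟨?_, ?_⟩⟩
        · have := N.comp_mem h0 hH
          rw [hat_comp] at this
          exact this
        · intro i
          refine Fin.cases ?_ (fun i => ?_) i
          · simp only [Fin.cases_zero, Fin.cons_zero]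
            congr 1
            funext j
            exact (hτρ w).2 (σ j)
          · simp only [Fin.cases_succ, Fin.cons_succ]
            exact (hτρ w).1 i
        · intro j
          simp only [Fin.cons_succ]
          exact (hτρ w).2 j
    obtain ⟨b, H, hH, τ, ρ, hτρ⟩ := P (n + 1) g hg
    have h1 := N.comp_mem (hf b τ) hH
    rw [hat_comp] at h1
    have h2 := hN (b + 1) (a + 1)
      (fun w => (Fin.cons (w 0) (fun j => w (ρ j).succ) : Fin (a + 1 + 1) → X)) (by
        intro l
        refine Fin.cases ?_ (fun l => ?_) l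
        · exact ⟨0, fun w => rfl⟩
        · exact ⟨(ρ l).succ, fun w => rfl⟩)
    have h3 := N.comp_mem h2 h1
    rw [hat_comp] at h3
    convert h3 using 2
    funext w
    simp only [comp_apply, Fin.cons_zero, Fin.cons_succ]
    congr 1
    · congr 1
      funext i
      exact ((hτρ w).1 i).symm
    · funext j
      exact ((hτρ w).2 j).symm
  closed := by
    classical
    intro m
    rw [ptClosed_iff]
    intro f hf a σ
    apply (ptClosed_iff _).mp N.closed
    intro A
    let B : Finset (Fin (m + 1) → X) := A.biUnion (fun y => match y with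
      | none => ∅
      | some ⟨k, w⟩ => if h : k = a then {fun i => w (Fin.cast (by rw [h]) (σ i))} else ∅)
    obtain ⟨g, hg, hgB⟩ := hf B
    refine ⟨_, hg a σ, fun y hy => ?_⟩
    match y, hy with
    | none, _ => rfl
    | some ⟨k, w⟩, hy =>
      by_cases hk : k = a
      · subst hk
        have : g (w ∘ σ) = f (w ∘ σ) := by
          apply hgB
          rw [Finset.mem_biUnion]
          refine ⟨_, hy, ?_⟩
          simp only [dite_true, Finset.mem_singleton]
          rfl
        rw [hat_same, hat_same, this]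
      · rw [hat_ne _ _ hk, hat_ne _ _ hk]

theorem toMon_le_backClone {N : LocalMonoid (Tup X)} {C : LocalClone X} (h : toMon C ≤ N) :
    ∀ (m n : ℕ) (F : (Fin (m + 1) → X) → (Fin (n + 1) → X)),
      (∀ i, ∃ j, ∀ w, F w i = w j) → hat F ∈ N.carrier := by
  intro m n F hF
  apply h
  refine Or.inr (Or.inr ⟨m, n, F, fun i => ?_, rfl⟩)
  obtain ⟨j, hj⟩ := hF i
  have : (fun w => F w i) = (fun w : Fin (m + 1) → X => w j) := funext hj
  rw [this]
  exact C.proj_mem m j

theorem le_backClone {N : LocalMonoid (Tup X)} {C : LocalClone X} (h : toMon C ≤ N) (hN) :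
    C ≤ backClone N hN := by
  intro m f hf a σ
  apply h
  refine Or.inr (Or.inr ⟨a, a + 1, _, fun i => ?_, rfl⟩)
  refine Fin.cases ?_ (fun l => ?_) i
  · exact C.comp_mem hf (fun i => C.proj_mem a (σ i))
  · exact C.proj_mem a l

theorem toMon_back {N : LocalMonoid (Tup X)} (hN) : toMon (backClone N hN) ≤ N := by
  rintro h (rfl | rfl | ⟨m, n, F, hF, rfl⟩)
  · exact N.id_mem
  · -- the zero map is a product of two hats
    have h1 := hN 0 0 (fun w _ => w 0) (fun i => ⟨0, fun w => rfl⟩)
    have h2 := hN 1 1 (fun w i => w i) (fun i => ⟨i, fun w => rfl⟩)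
    have h3 := N.comp_mem h2 h1
    rwa [hat_comp_ne _ _ (by omega)] at h3
  · have P : ∀ (k : ℕ) (G : Fin k → Op X m), (∀ i, ∀ (a : ℕ) (σ : Fin (m + 1) → Fin (a + 1)),
        hat (n := a + 1) (fun w => (Fin.cons (G i (w ∘ σ)) w : Fin (a + 1 + 1) → X)) ∈ N.carrier) →
        ∃ (b : ℕ) (H : (Fin (m + 1) → X) → (Fin (b + 1) → X)), hat H ∈ N.carrier ∧
          ∃ (τ : Fin k → Fin (b + 1)) (ρ : Fin (m + 1) → Fin (b + 1)),
            ∀ w, (∀ i, H w (τ i) = G i w) ∧ (∀ j, H w (ρ j) = w j) := by
      intro k
      induction k with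
      | zero =>
        intro G _
        exact ⟨m, id, hN _ _ _ (fun i => ⟨i, fun w => rfl⟩), Fin.elim0, id,
          fun w => ⟨fun i => i.elim0, fun j => rfl⟩⟩
      | succ k ih =>
        intro G hG
        obtain ⟨b, H, hH, τ, ρ, hτρ⟩ := ih (fun i => G i.succ) (fun i => hG i.succ)
        have h0 := hG 0 b ρ
        refine ⟨b + 1, fun w => (Fin.cons (G 0 (H w ∘ ρ)) (H w) : Fin (b + 1 + 1) → X), ?_,
          Fin.cases 0 (fun i => (τ i).succ), fun j => (ρ j).succ, fun w => ⟨?_, ?_⟩⟩
        · have := N.comp_mem h0 hH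
          rw [hat_comp] at this
          exact this
        · intro i
          refine Fin.cases ?_ (fun i => ?_) i
          · simp only [Fin.cases_zero, Fin.cons_zero]
            congr 1
            funext j
            exact (hτρ w).2 j
          · simp only [Fin.cases_succ, Fin.cons_succ]
            exact (hτρ w).1 i
        · intro j
          simp only [Fin.cons_succ]
          exact (hτρ w).2 j
    obtain ⟨b, H, hH, τ, ρ, hτρ⟩ := P (n + 1) (fun i w => F w i) hF
    have h2 := hN b n (fun w i => w (τ i)) (fun i => ⟨τ i, fun w => rfl⟩)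
    have h3 := N.comp_mem h2 hH
    rw [hat_comp] at h3
    convert h3 using 2
    funext w i
    exact ((hτρ w).1 i).symm

theorem toMon_completeEmb [Nonempty X] :
    CompleteEmb (toMon : LocalClone X → LocalMonoid (Tup X)) := by
  apply CompleteEmb.mk' _ toMon_mono
  · intro C D h
    exact le_antisymm (toMon_le h.le) (toMon_le h.ge)
  · rintro S ⟨C0, hC0⟩ h hh
    have hmem : ∀ C ∈ S, h ∈ (toMon C).carrier := fun C hC => hh _ ⟨C, hC, rfl⟩
    rcases hmem C0 hC0 with (rfl | rfl | ⟨m, n, F, hF, rfl⟩)
    · exact Or.inl rfl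
    · exact Or.inr (Or.inl rfl)
    · rw [hat_mem_toMon]
      intro i C hC
      have := hmem C hC
      rw [hat_mem_toMon] at this
      exact this i
  · rintro S ⟨C0, hC0⟩ N hN
    have hN' := toMon_le_backClone (hN C0 hC0)
    refine le_trans (toMon_mono ?_) (toMon_back hN')
    apply sSup_le
    intro C hC
    exact le_backClone (hN C hC) hN'

end Pool.Agent.H146R3
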