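import Mathlib

/-!
Generic monotone functions from a countable poset to the rationals.
-/

namespace Pool.Agent.H146R3.GenericMono

variable {W : Type*} [PartialOrder W]

/-- `g` is a good assignment on the finite set `s`. -/
structure Good (lo hi forb : W → ℚ) (s : Finset W) (g : W → ℚ) : Prop where
  triv : ∀ w ∈ s, lo w = hi w → g w = lo w
  lt_lo : ∀ w ∈ s, lo w < hi w → lo w < g w
  lt_hi : ∀ w ∈ s, lo w < hi w → g w < hi w
  ne : ∀ w ∈ s, lo w < hi w → g w ≠ forb w
  mono : ∀ w ∈ s, ∀ w' ∈ s, w ≤ w' → g w ≤ g w'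
  inj : ∀ w ∈ s, ∀ w' ∈ s, w ≠ w' → lo w < hi w → lo w' < hi w' → g w ≠ g w'

theorem exists_between_avoid (X Y F : Finset ℚ) (h : ∀ x ∈ X, ∀ y ∈ Y, x < y) :
    ∃ c, (∀ x ∈ X, x < c) ∧ (∀ y ∈ Y, c < y) ∧ c ∉ F := by
  obtain ⟨m1, h1, h1'⟩ := Order.exists_between_finsets X Y h
  obtain ⟨m2, h2, h2'⟩ := Order.exists_between_finsets (insert m1 X) Y (by
    intro x hx y hy
    rcases Finset.mem_insert.mp hx with rfl | hx
    · exact h1' y hy
    · exact h x hx y hy)
  have h12 : m1 < m2 := h2 m1 (Finset.mem_insert_self _ _)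
  obtain ⟨c, hc, hcF⟩ := (Set.Ioo_infinite h12).exists_notMem_finset F
  refine ⟨c, fun x hx => lt_trans (h1 x hx) hc.1, fun y hy => lt_trans hc.2 (h2' y hy), hcF⟩

theorem extend {lo hi forb : W → ℚ} (hlo : Monotone lo) (hhi : Monotone hi)
    (hle : ∀ w, lo w ≤ hi w) {s : Finset W} {g : W → ℚ} (hg : Good lo hi forb s g)
    (w : W) (hw : w ∉ s) :
    ∃ g' : W → ℚ, (∀ x ∈ s, g' x = g x) ∧
      ∀ s' : Finset W, (∀ x, x ∈ s' ↔ x = w ∨ x ∈ s) → Good lo hi forb s' g' := by
  classical
  -- the value at `w`
  have key : ∃ c : ℚ, (lo w = hi w → c = lo w) ∧ (lo w < hi w → lo w < c ∧ c < hi w ∧ c ≠ forb w ∧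
      ∀ x ∈ s, c ≠ g x) ∧ (∀ x ∈ s, x ≤ w → g x ≤ c) ∧ (∀ x ∈ s, w ≤ x → c ≤ g x) := by
    have glo : ∀ x ∈ s, lo x ≤ g x := by
      intro x hx
      rcases (hle x).lt_or_eq with h | h
      · exact (hg.lt_lo x hx h).le
      · exact (hg.triv x hx h).ge
    have ghi : ∀ x ∈ s, g x ≤ hi x := by
      intro x hx
      rcases (hle x).lt_or_eq with h | h
      · exact (hg.lt_hi x hx h).le
      · rw [hg.triv x hx h, h]
    rcases (hle w).lt_or_eq with hlt | heq
    · obtain ⟨c, h1, h2, h3⟩ := exists_between_avoid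
        (insert (lo w) ((s.filter (fun x => x ≤ w)).image g))
        (insert (hi w) ((s.filter (fun x => w ≤ x)).image g))
        (insert (forb w) (s.image g)) (by
          intro a ha b hb
          rw [Finset.mem_insert, Finset.mem_image] at ha hb
          rcases ha with rfl | ⟨x, hx, rfl⟩
          · rcases hb with rfl | ⟨y, hy, rfl⟩
            · exact hlt
            · obtain ⟨hys, hwy⟩ := Finset.mem_filter.mp hy
              rcases (hle y).lt_or_eq with h | h
              · exact lt_of_le_of_lt (hlo hwy) (hg.lt_lo y hys h)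
              · rw [hg.triv y hys h, h]
                exact lt_of_lt_of_le hlt (hhi hwy)
          · obtain ⟨hxs, hxw⟩ := Finset.mem_filter.mp hx
            rcases hb with rfl | ⟨y, hy, rfl⟩
            · rcases (hle x).lt_or_eq with h | h
              · exact lt_of_lt_of_le (hg.lt_hi x hxs h) (hhi hxw)
              · rw [hg.triv x hxs h]
                exact lt_of_le_of_lt (hlo hxw) hlt
            · obtain ⟨hys, hwy⟩ := Finset.mem_filter.mp hy
              have hxy : x ≠ y := by
                rintro rfl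
                exact hw (by rwa [le_antisymm hwy hxw])
              refine lt_of_le_of_ne (hg.mono x hxs y hys (le_trans hxw hwy)) ?_
              rcases (hle x).lt_or_eq with h | h
              · rcases (hle y).lt_or_eq with h' | h'
                · exact hg.inj x hxs y hys hxy h h'
                · have e1 : g x < hi x := hg.lt_hi x hxs h
                  have e2 : hi x ≤ hi y := hhi (le_trans hxw hwy)
                  rw [hg.triv y hys h', h']
                  exact ne_of_lt (lt_of_lt_of_le e1 e2)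
              · rcases (hle y).lt_or_eq with h' | h'
                · have e1 : lo y < g y := hg.lt_lo y hys h'
                  have e2 : lo x ≤ lo y := hlo (le_trans hxw hwy)
                  rw [hg.triv x hxs h]
                  exact ne_of_lt (lt_of_le_of_lt e2 e1)
                · rw [hg.triv x hxs h, hg.triv y hys h']
                  have e1 : lo x ≤ lo w := hlo hxw
                  have e2 : hi w ≤ hi y := hhi hwy
                  rw [← h'] at e2
                  exact ne_of_lt (lt_of_le_of_lt e1 (lt_of_lt_of_le hlt e2)))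
      refine ⟨c, fun h => absurd h hlt.ne, fun _ => ⟨h1 _ (Finset.mem_insert_self _ _),
        h2 _ (Finset.mem_insert_self _ _), ?_, ?_⟩, ?_, ?_⟩
      · rintro rfl
        exact h3 (Finset.mem_insert_self _ _)
      · rintro x hx rfl
        exact h3 (Finset.mem_insert_of_mem (Finset.mem_image_of_mem _ hx))
      · intro x hx hxw
        exact (h1 _ (Finset.mem_insert_of_mem (Finset.mem_image_of_mem _
          (Finset.mem_filter.mpr ⟨hx, hxw⟩)))).le
      · intro x hx hwx
        exact (h2 _ (Finset.mem_insert_of_mem (Finset.mem_image_of_mem _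
          (Finset.mem_filter.mpr ⟨hx, hwx⟩)))).le
    · refine ⟨lo w, fun _ => rfl, fun h => absurd heq h.ne, ?_, ?_⟩
      · intro x hx hxw
        rw [heq]
        exact le_trans (ghi x hx) (hhi hxw)
      · intro x hx hwx
        exact le_trans (hlo hwx) (glo x hx)
  obtain ⟨c, hc1, hc2, hc3, hc4⟩ := key
  have hgx : ∀ x ∈ s, Function.update g w c x = g x := by
    intro x hx
    apply Function.update_of_ne
    rintro rfl
    exact hw hx
  have hgw : Function.update g w c w = c := Function.update_self _ _ _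
  refine ⟨Function.update g w c, hgx, ?_⟩
  intro s' hs'
  constructor
  · intro x hx h
    rcases (hs' x).mp hx with rfl | hx
    · rw [hgw]; exact hc1 h
    · rw [hgx x hx]; exact hg.triv x hx h
  · intro x hx h
    rcases (hs' x).mp hx with rfl | hx
    · rw [hgw]; exact (hc2 h).1
    · rw [hgx x hx]; exact hg.lt_lo x hx h
  · intro x hx h
    rcases (hs' x).mp hx with rfl | hx
    · rw [hgw]; exact (hc2 h).2.1
    · rw [hgx x hx]; exact hg.lt_hi x hx h
  · intro x hx h
    rcases (hs' x).mp hx with rfl | hx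
    · rw [hgw]; exact (hc2 h).2.2.1
    · rw [hgx x hx]; exact hg.ne x hx h
  · intro x hx y hy hxy
    rcases (hs' x).mp hx with rfl | hx
    · rcases (hs' y).mp hy with rfl | hy
      · exact le_refl _
      · rw [hgw, hgx y hy]; exact hc4 y hy hxy
    · rcases (hs' y).mp hy with rfl | hy
      · rw [hgw, hgx x hx]; exact hc3 x hx hxy
      · rw [hgx x hx, hgx y hy]; exact hg.mono x hx y hy hxy
  · intro x hx y hy hxy h h'
    rcases (hs' x).mp hx with rfl | hx
    · rcases (hs' y).mp hy with rfl | hy
      · exact absurd rfl hxy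
      · rw [hgw, hgx y hy]; exact (hc2 h).2.2.2 y hy
    · rcases (hs' y).mp hy with rfl | hy
      · rw [hgw, hgx x hx]; exact ((hc2 h').2.2.2 x hx).symm
      · rw [hgx x hx, hgx y hy]; exact hg.inj x hx y hy hxy h h'

/-- The stages of the construction. -/
theorem exists_stages {lo hi forb : W → ℚ} (hlo : Monotone lo) (hhi : Monotone hi)
    (hle : ∀ w, lo w ≤ hi w) (e : ℕ → W) :
    ∃ (S : ℕ → Finset W) (G : ℕ → W → ℚ), (∀ n, Good lo hi forb (S n) (G n)) ∧
      (∀ n, S n ⊆ S (n + 1)) ∧ (∀ n, ∀ x ∈ S n, G (n + 1) x = G n x) ∧ (∀ n, e n ∈ S (n + 1)) := by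
  classical
  have step : ∀ (n : ℕ) (p : {p : Finset W × (W → ℚ) // Good lo hi forb p.1 p.2}),
      ∃ q : {p : Finset W × (W → ℚ) // Good lo hi forb p.1 p.2},
        p.1.1 ⊆ q.1.1 ∧ (∀ x ∈ p.1.1, q.1.2 x = p.1.2 x) ∧ e n ∈ q.1.1 := by
    intro n p
    by_cases h : e n ∈ p.1.1
    · exact ⟨p, Finset.Subset.refl _, fun _ _ => rfl, h⟩
    · obtain ⟨g', hg', hgood⟩ := extend hlo hhi hle p.2 (e n) h
      refine ⟨⟨(insert (e n) p.1.1, g'), hgood _ (fun x => Finset.mem_insert)⟩, ?_, hg', ?_⟩
      · exact Finset.subset_insert _ _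
      · exact Finset.mem_insert_self _ _
  choose nxt hn1 hn2 hn3 using step
  have base : Good lo hi forb (∅ : Finset W) (fun _ => 0) := by
    constructor <;> simp
  let seq : ℕ → {p : Finset W × (W → ℚ) // Good lo hi forb p.1 p.2} :=
    fun n => Nat.rec ⟨(∅, fun _ => 0), base⟩ (fun n p => nxt n p) n
  refine ⟨fun n => (seq n).1.1, fun n => (seq n).1.2, fun n => (seq n).2, ?_, ?_, ?_⟩
  · intro n; exact hn1 n (seq n)
  · intro n; exact hn2 n (seq n)
  · intro n; exact hn3 n (seq n)

/-- Generic monotone functions between given monotone bounds. -/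
theorem exists_generic [Countable W] {lo hi forb : W → ℚ} (hlo : Monotone lo) (hhi : Monotone hi)
    (hle : ∀ w, lo w ≤ hi w) :
    ∃ g : W → ℚ, Monotone g ∧ (∀ w, lo w = hi w → g w = lo w) ∧
      (∀ w, lo w < hi w → g w ≠ forb w) ∧
      (∀ w w', w ≠ w' → lo w < hi w → lo w' < hi w' → g w ≠ g w') := by
  classical
  rcases isEmpty_or_nonempty W with hW | hW
  · exact ⟨fun _ => 0, fun w => (hW.false w).elim, fun w => (hW.false w).elim,
      fun w => (hW.false w).elim, fun w => (hW.false w).elim⟩
  obtain ⟨e, he⟩ := exists_surjective_nat W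
  obtain ⟨S, G, hgood, hsub, hval, hmem⟩ := exists_stages (forb := forb) hlo hhi hle e
  have hS : ∀ m n, m ≤ n → S m ⊆ S n := fun m n h => monotone_nat_of_le_succ hsub h
  have hG : ∀ m n, m ≤ n → ∀ x ∈ S m, G n x = G m x := by
    intro m n h
    induction n, h using Nat.le_induction with
    | base => intro x _; rfl
    | succ n hmn ih =>
      intro x hx
      rw [hval n x (hS m n hmn hx), ih x hx]
  choose idx hidx using he
  have hin : ∀ w, w ∈ S (idx w + 1) := by
    intro w
    have := hmem (idx w)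
    rwa [hidx w] at this
  let g : W → ℚ := fun w => G (idx w + 1) w
  have hg : ∀ w n, idx w + 1 ≤ n → g w = G n w := fun w n h => (hG _ _ h w (hin w)).symm
  refine ⟨g, ?_, ?_, ?_, ?_⟩
  · intro w w' h
    let N := max (idx w + 1) (idx w' + 1)
    rw [hg w N (le_max_left _ _), hg w' N (le_max_right _ _)]
    exact (hgood N).mono w (hS _ _ (le_max_left _ _) (hin w)) w'
      (hS _ _ (le_max_right _ _) (hin w')) h
  · intro w h
    exact (hgood _).triv w (hin w) h
  · intro w h
    exact (hgood _).ne w (hin w) h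
  · intro w w' hne h h'
    let N := max (idx w + 1) (idx w' + 1)
    rw [hg w N (le_max_left _ _), hg w' N (le_max_right _ _)]
    exact (hgood N).inj w (hS _ _ (le_max_left _ _) (hin w)) w'
      (hS _ _ (le_max_right _ _) (hin w')) hne h h'

end Pool.Agent.H146R3.GenericMono
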