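import Mathlib

/-!
The lattices of local clones, local transformation monoids and closed permutation groups.
-/

namespace Pool.Agent.H146R3

universe u

/-- `S` is closed in the space `I → X` of all maps `I → X`, which carries the product topology
(the topology of pointwise convergence), where `X` is discrete. -/
def PtClosed {I X : Type*} (S : Set (I → X)) : Prop :=
  @IsClosed (I → X) (@Pi.topologicalSpace I (fun _ => X) (fun _ => ⊥)) S

theorem isOpen_agree {I X : Type*} (f : I → X) (A : Finset I) :
    @IsOpen (I → X) (@Pi.topologicalSpace I (fun _ => X) (fun _ => ⊥))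
      {g | ∀ a ∈ A, g a = f a} := by
  letI : TopologicalSpace X := ⊥
  haveI : DiscreteTopology X := ⟨rfl⟩
  have : {g : I → X | ∀ a ∈ A, g a = f a} = (A : Set I).pi (fun a => {f a}) := by
    ext g; simp [Set.mem_pi]
  rw [this]
  exact isOpen_set_pi A.finite_toSet (fun a _ => isOpen_discrete _)

theorem ptClosed_iff {I X : Type*} (S : Set (I → X)) :
    PtClosed S ↔ ∀ f : I → X, (∀ A : Finset I, ∃ g ∈ S, ∀ a ∈ A, g a = f a) → f ∈ S := by
  letI : TopologicalSpace X := ⊥
  haveI : DiscreteTopology X := ⟨rfl⟩
  constructor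
  · intro h f hf
    have h' : IsClosed S := h
    rw [← h'.closure_eq, mem_closure_iff]
    intro U hU hfU
    obtain ⟨A, u, hu, hsub⟩ := isOpen_pi_iff.mp hU f hfU
    obtain ⟨g, hg, hag⟩ := hf A
    refine ⟨g, hsub ?_, hg⟩
    intro a ha
    rw [hag a ha]
    exact (hu a ha).2
  · intro h
    show IsClosed S
    rw [← closure_subset_iff_isClosed]
    intro f hf
    apply h
    intro A
    obtain ⟨g, hg1, hg2⟩ := mem_closure_iff.mp hf _ (isOpen_agree f A) (by intro a _; rfl)
    exact ⟨g, hg2, hg1⟩

/-! ### Local clones -/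

/-- The operations on `X` of arity `n + 1`. -/
abbrev Op (X : Type u) (n : ℕ) : Type u := (Fin (n + 1) → X) → X

/-- A local clone on `X`: for every arity `n + 1 ≥ 1` a set of operations of this arity, closed in
the topology of pointwise convergence, such that all projections belong to the clone, and the clone
is closed under composition. -/
@[ext] structure LocalClone (X : Type u) where
  /-- the members of arity `n + 1` -/
  carrier : ∀ n : ℕ, Set (Op X n)
  proj_mem : ∀ (n : ℕ) (i : Fin (n + 1)), (fun x => x i) ∈ carrier n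
  comp_mem : ∀ {n m : ℕ} {f : Op X n} {g : Fin (n + 1) → Op X m}, f ∈ carrier n →
    (∀ i, g i ∈ carrier m) → (fun x => f (fun i => g i x)) ∈ carrier m
  closed : ∀ n, PtClosed (carrier n)

namespace LocalClone

variable {X : Type u}

instance : PartialOrder (LocalClone X) where
  le C D := ∀ n, C.carrier n ⊆ D.carrier n
  le_refl C n := subset_rfl
  le_trans C D E h1 h2 n := (h1 n).trans (h2 n)
  le_antisymm C D h1 h2 := by
    ext n f
    exact ⟨fun h => h1 n h, fun h => h2 n h⟩

instance : InfSet (LocalClone X) where
  sInf S :=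
    { carrier := fun n => {f | ∀ C ∈ S, f ∈ C.carrier n}
      proj_mem := fun n i C _ => C.proj_mem n i
      comp_mem := fun hf hg C hC => C.comp_mem (hf C hC) (fun i => hg i C hC)
      closed := fun n => by
        rw [ptClosed_iff]
        intro f hf C hC
        refine (ptClosed_iff _).mp (C.closed n) f (fun A => ?_)
        obtain ⟨g, hg, h⟩ := hf A
        exact ⟨g, hg C hC, h⟩ }

/-- The local clones on `X`, ordered by inclusion, form a complete lattice; meets are
intersections. -/
instance : CompleteLattice (LocalClone X) :=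
  completeLatticeOfInf (LocalClone X) (fun S => by
    constructor
    · intro C hC n f hf
      exact hf C hC
    · intro D hD n f hf C hC
      exact hD hC n hf)

theorem le_def {C D : LocalClone X} : C ≤ D ↔ ∀ n, C.carrier n ⊆ D.carrier n := Iff.rfl

theorem mem_sInf {S : Set (LocalClone X)} {n : ℕ} {f : Op X n} :
    f ∈ (sInf S).carrier n ↔ ∀ C ∈ S, f ∈ C.carrier n := Iff.rfl

end LocalClone

/-! ### Local transformation monoids -/

/-- A local transformation monoid on `X`: a set of maps `X → X`, closed in the topology of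
pointwise convergence, containing the identity and closed under composition. -/
@[ext] structure LocalMonoid (X : Type u) where
  /-- the members of the monoid -/
  carrier : Set (X → X)
  id_mem : id ∈ carrier
  comp_mem : ∀ {f g : X → X}, f ∈ carrier → g ∈ carrier → f ∘ g ∈ carrier
  closed : PtClosed carrier

namespace LocalMonoid

variable {X : Type u}

instance : PartialOrder (LocalMonoid X) where
  le M N := M.carrier ⊆ N.carrier
  le_refl M := subset_rfl
  le_trans M N P h1 h2 := Set.Subset.trans h1 h2
  le_antisymm M N h1 h2 := by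
    ext f
    exact ⟨fun h => h1 h, fun h => h2 h⟩

instance : InfSet (LocalMonoid X) where
  sInf S :=
    { carrier := {f | ∀ M ∈ S, f ∈ M.carrier}
      id_mem := fun M _ => M.id_mem
      comp_mem := fun hf hg M hM => M.comp_mem (hf M hM) (hg M hM)
      closed := by
        rw [ptClosed_iff]
        intro f hf M hM
        refine (ptClosed_iff _).mp M.closed f (fun A => ?_)
        obtain ⟨g, hg, h⟩ := hf A
        exact ⟨g, hg M hM, h⟩ }

/-- The local transformation monoids on `X`, ordered by inclusion, form a complete lattice; meets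
are intersections. -/
instance : CompleteLattice (LocalMonoid X) :=
  completeLatticeOfInf (LocalMonoid X) (fun S => by
    constructor
    · intro C hC f hf
      exact hf C hC
    · intro D hD f hf C hC
      exact hD hC hf)

theorem le_def {M N : LocalMonoid X} : M ≤ N ↔ M.carrier ⊆ N.carrier := Iff.rfl

theorem mem_sInf {S : Set (LocalMonoid X)} {f : X → X} :
    f ∈ (sInf S).carrier ↔ ∀ M ∈ S, f ∈ M.carrier := Iff.rfl

end LocalMonoid

/-! ### Closed permutation groups -/

/-- The topology on the set of all permutations of `X`: the subspace topology inherited from the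
space `X → X` with the product topology, where `X` is discrete. -/
def permTopology (X : Type u) : TopologicalSpace (Equiv.Perm X) :=
  TopologicalSpace.induced (fun (g : Equiv.Perm X) (x : X) => g x)
    (@Pi.topologicalSpace X (fun _ => X) (fun _ => ⊥))

theorem permClosed_iff {X : Type u} (S : Set (Equiv.Perm X)) :
    @IsClosed _ (permTopology X) S ↔
      ∀ f : Equiv.Perm X, (∀ A : Finset X, ∃ g ∈ S, ∀ a ∈ A, g a = f a) → f ∈ S := by
  letI t0 : TopologicalSpace X := ⊥
  haveI : DiscreteTopology X := ⟨rfl⟩
  letI t1 : TopologicalSpace (Equiv.Perm X) := permTopology X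
  have hcont : Continuous (fun (g : Equiv.Perm X) (x : X) => g x) := continuous_induced_dom
  constructor
  · intro h f hf
    have h' : IsClosed S := h
    rw [← h'.closure_eq, mem_closure_iff]
    intro U hU hfU
    obtain ⟨V, hV, hVU⟩ := isOpen_induced_iff.mp hU
    have hfV : (fun x => f x) ∈ V := by
      rw [← hVU] at hfU; exact hfU
    obtain ⟨A, u, hu, hsub⟩ := isOpen_pi_iff.mp hV _ hfV
    obtain ⟨g, hg, hag⟩ := hf A
    refine ⟨g, ?_, hg⟩
    rw [← hVU]
    apply hsub
    intro a ha
    have := (hu a ha).2
    show g a ∈ u a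
    rw [hag a ha]
    exact this
  · intro h
    show IsClosed S
    rw [← closure_subset_iff_isClosed]
    intro f hf
    apply h
    intro A
    obtain ⟨g, hg1, hg2⟩ := mem_closure_iff.mp hf _
      ((isOpen_agree (fun x => f x) A).preimage hcont) (by intro a _; rfl)
    exact ⟨g, hg2, hg1⟩

/-- A local permutation group on `X`: a group of permutations of `X` which is closed in the space
of all permutations of `X`. -/
@[ext] structure LocalGroup (X : Type u) where
  /-- the members of the group -/
  carrier : Set (Equiv.Perm X)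
  one_mem : 1 ∈ carrier
  mul_mem : ∀ {f g : Equiv.Perm X}, f ∈ carrier → g ∈ carrier → f * g ∈ carrier
  inv_mem : ∀ {f : Equiv.Perm X}, f ∈ carrier → f⁻¹ ∈ carrier
  closed : @IsClosed _ (permTopology X) carrier

namespace LocalGroup

variable {X : Type u}

instance : PartialOrder (LocalGroup X) where
  le M N := M.carrier ⊆ N.carrier
  le_refl M := subset_rfl
  le_trans M N P h1 h2 := Set.Subset.trans h1 h2
  le_antisymm M N h1 h2 := by
    ext f
    exact ⟨fun h => h1 h, fun h => h2 h⟩

instance : InfSet (LocalGroup X) where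
  sInf S :=
    { carrier := {f | ∀ M ∈ S, f ∈ M.carrier}
      one_mem := fun M _ => M.one_mem
      mul_mem := fun hf hg M hM => M.mul_mem (hf M hM) (hg M hM)
      inv_mem := fun hf M hM => M.inv_mem (hf M hM)
      closed := by
        rw [permClosed_iff]
        intro f hf M hM
        refine (permClosed_iff _).mp M.closed f (fun A => ?_)
        obtain ⟨g, hg, h⟩ := hf A
        exact ⟨g, hg M hM, h⟩ }

/-- The closed permutation groups on `X`, ordered by inclusion, form a complete lattice; meets
are intersections. -/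
instance : CompleteLattice (LocalGroup X) :=
  completeLatticeOfInf (LocalGroup X) (fun S => by
    constructor
    · intro C hC f hf
      exact hf C hC
    · intro D hD f hf C hC
      exact hD hC hf)

theorem le_def {M N : LocalGroup X} : M ≤ N ↔ M.carrier ⊆ N.carrier := Iff.rfl

theorem mem_sInf {S : Set (LocalGroup X)} {f : Equiv.Perm X} :
    f ∈ (sInf S).carrier ↔ ∀ M ∈ S, f ∈ M.carrier := Iff.rfl

end LocalGroup

/-! ### Complete embeddings -/

/-- `φ` is injective and preserves the meets and joins of all nonempty families. -/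
def CompleteEmb {L K : Type*} [CompleteLattice L] [CompleteLattice K] (φ : L → K) : Prop :=
  Function.Injective φ ∧ ∀ S : Set L, S.Nonempty →
    φ (sInf S) = sInf (φ '' S) ∧ φ (sSup S) = sSup (φ '' S)

theorem CompleteEmb.comp {L K J : Type*} [CompleteLattice L] [CompleteLattice K]
    [CompleteLattice J] {ψ : K → J} {φ : L → K} (hψ : CompleteEmb ψ) (hφ : CompleteEmb φ) :
    CompleteEmb (ψ ∘ φ) := by
  refine ⟨hψ.1.comp hφ.1, fun S hS => ?_⟩
  have h1 := hφ.2 S hS
  have h2 := hψ.2 (φ '' S) (hS.image φ)
  rw [Set.image_comp, ← h2.1, ← h2.2, ← h1.1, ← h1.2]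
  exact ⟨rfl, rfl⟩

theorem CompleteEmb.of_orderIso {L K : Type*} [CompleteLattice L] [CompleteLattice K]
    (e : L ≃o K) : CompleteEmb e := by
  refine ⟨e.injective, fun S _ => ?_⟩
  rw [e.map_sInf, e.map_sSup, sInf_image, sSup_image]
  exact ⟨rfl, rfl⟩

/-- A criterion for complete embeddings. -/
theorem CompleteEmb.mk' {L K : Type*} [CompleteLattice L] [CompleteLattice K] (φ : L → K)
    (hmono : Monotone φ) (hinj : Function.Injective φ)
    (hinf : ∀ S : Set L, S.Nonempty → sInf (φ '' S) ≤ φ (sInf S))
    (hsup : ∀ S : Set L, S.Nonempty → ∀ N : K, (∀ x ∈ S, φ x ≤ N) → φ (sSup S) ≤ N) :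
    CompleteEmb φ := by
  refine ⟨hinj, fun S hS => ⟨le_antisymm ?_ (hinf S hS), le_antisymm ?_ ?_⟩⟩
  · apply le_sInf
    rintro _ ⟨x, hx, rfl⟩
    exact hmono (sInf_le hx)
  · exact hsup S hS _ (fun x hx => le_sSup ⟨x, hx, rfl⟩)
  · apply sSup_le
    rintro _ ⟨x, hx, rfl⟩
    exact hmono (le_sSup hx)

theorem CompleteEmb.map_inf {L K : Type*} [CompleteLattice L] [CompleteLattice K] {φ : L → K}
    (h : CompleteEmb φ) (x y : L) : φ (x ⊓ y) = φ x ⊓ φ y := by
  have := (h.2 {x, y} ⟨x, by simp⟩).1
  rwa [sInf_pair, Set.image_pair, sInf_pair] at this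

theorem CompleteEmb.map_sup {L K : Type*} [CompleteLattice L] [CompleteLattice K] {φ : L → K}
    (h : CompleteEmb φ) (x y : L) : φ (x ⊔ y) = φ x ⊔ φ y := by
  have := (h.2 {x, y} ⟨x, by simp⟩).2
  rwa [sSup_pair, Set.image_pair, sSup_pair] at this

/-! ### Transport along bijections -/

theorem LocalMonoid.congr_aux {X Y : Type u} (e : X ≃ Y) (S : Set (X → X)) (h : PtClosed S) :
    PtClosed {f : Y → Y | e.symm ∘ f ∘ e ∈ S} := by
  classical
  rw [ptClosed_iff] at h ⊢
  intro f hf
  apply h
  intro A
  obtain ⟨g, hg, hag⟩ := hf (A.image e)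
  refine ⟨e.symm ∘ g ∘ e, hg, fun a ha => ?_⟩
  simp only [Function.comp]
  rw [hag (e a) (Finset.mem_image_of_mem e ha)]

/-- Transport of a local monoid along a bijection. -/
def LocalMonoid.map {X Y : Type u} (e : X ≃ Y) (M : LocalMonoid X) : LocalMonoid Y where
  carrier := {f | e.symm ∘ f ∘ e ∈ M.carrier}
  id_mem := by
    have : e.symm ∘ (id : Y → Y) ∘ e = id := by funext x; simp
    simp only [Set.mem_setOf_eq, this]
    exact M.id_mem
  comp_mem := by
    intro f g hf hg
    have : e.symm ∘ (f ∘ g) ∘ e = (e.symm ∘ f ∘ e) ∘ (e.symm ∘ g ∘ e) := by funext x; simp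
    simp only [Set.mem_setOf_eq, this]
    exact M.comp_mem hf hg
  closed := LocalMonoid.congr_aux e M.carrier M.closed

/-- The lattice isomorphism induced by a bijection. -/
def LocalMonoid.congr {X Y : Type u} (e : X ≃ Y) : LocalMonoid X ≃o LocalMonoid Y where
  toFun := LocalMonoid.map e
  invFun := LocalMonoid.map e.symm
  left_inv M := by
    ext f
    show e.symm ∘ (e.symm.symm ∘ f ∘ e.symm) ∘ e ∈ M.carrier ↔ _
    have : e.symm ∘ (e.symm.symm ∘ f ∘ e.symm) ∘ e = f := by funext x; simp
    rw [this]
  right_inv M := by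
    ext f
    show e.symm.symm ∘ (e.symm ∘ f ∘ e) ∘ e.symm ∈ M.carrier ↔ _
    have : e.symm.symm ∘ (e.symm ∘ f ∘ e) ∘ e.symm = f := by funext x; simp
    rw [this]
  map_rel_iff' := by
    intro M N
    constructor
    · intro h f hf
      have : e.symm ∘ (e ∘ f ∘ e.symm) ∘ e = f := by funext x; simp
      have h2 : (e ∘ f ∘ e.symm) ∈ (LocalMonoid.map e M).carrier := by
        show e.symm ∘ (e ∘ f ∘ e.symm) ∘ e ∈ M.carrier
        rw [this]; exact hf
      have h3 := h h2
      have h4 : e.symm ∘ (e ∘ f ∘ e.symm) ∘ e ∈ N.carrier := h3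
      rwa [this] at h4
    · intro h f hf
      exact h hf

theorem LocalGroup.congr_aux {X Y : Type u} (e : X ≃ Y) (S : Set (Equiv.Perm X))
    (h : @IsClosed _ (permTopology X) S) :
    @IsClosed _ (permTopology Y) {f : Equiv.Perm Y | e.trans (f.trans e.symm) ∈ S} := by
  classical
  rw [permClosed_iff] at h ⊢
  intro f hf
  apply h
  intro A
  obtain ⟨g, hg, hag⟩ := hf (A.image e)
  refine ⟨e.trans (g.trans e.symm), hg, fun a ha => ?_⟩
  simp only [Equiv.trans_apply]
  rw [hag (e a) (Finset.mem_image_of_mem e ha)]

/-- Transport of a local permutation group along a bijection. -/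
def LocalGroup.map {X Y : Type u} (e : X ≃ Y) (M : LocalGroup X) : LocalGroup Y where
  carrier := {f | e.trans (f.trans e.symm) ∈ M.carrier}
  one_mem := by
    have : e.trans ((1 : Equiv.Perm Y).trans e.symm) = 1 := by ext x; simp
    simp only [Set.mem_setOf_eq, this]
    exact M.one_mem
  mul_mem := by
    intro f g hf hg
    have : e.trans ((f * g).trans e.symm) =
      (e.trans (f.trans e.symm)) * (e.trans (g.trans e.symm)) := by ext x; simp
    simp only [Set.mem_setOf_eq, this]
    exact M.mul_mem hf hg
  inv_mem := by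
    intro f hf
    have : e.trans (f⁻¹.trans e.symm) = (e.trans (f.trans e.symm))⁻¹ := by
      rw [eq_inv_iff_mul_eq_one]
      ext x; simp
    simp only [Set.mem_setOf_eq, this]
    exact M.inv_mem hf
  closed := LocalGroup.congr_aux e M.carrier M.closed

/-- The lattice isomorphism induced by a bijection. -/
def LocalGroup.congr {X Y : Type u} (e : X ≃ Y) : LocalGroup X ≃o LocalGroup Y where
  toFun := LocalGroup.map e
  invFun := LocalGroup.map e.symm
  left_inv M := by
    ext f
    show e.trans ((e.symm.trans (f.trans e.symm.symm)).trans e.symm) ∈ M.carrier ↔ _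
    have : e.trans ((e.symm.trans (f.trans e.symm.symm)).trans e.symm) = f := by ext x; simp
    rw [this]
  right_inv M := by
    ext f
    show e.symm.trans ((e.trans (f.trans e.symm)).trans e.symm.symm) ∈ M.carrier ↔ _
    have : e.symm.trans ((e.trans (f.trans e.symm)).trans e.symm.symm) = f := by ext x; simp
    rw [this]
  map_rel_iff' := by
    intro M N
    constructor
    · intro h f hf
      have : e.trans ((e.symm.trans (f.trans e)).trans e.symm) = f := by ext x; simp
      have h2 : (e.symm.trans (f.trans e)) ∈ (LocalGroup.map e M).carrier := by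
        show e.trans ((e.symm.trans (f.trans e)).trans e.symm) ∈ M.carrier
        rw [this]; exact hf
      have h3 := h h2
      have h4 : e.trans ((e.symm.trans (f.trans e)).trans e.symm) ∈ N.carrier := h3
      rwa [this] at h4
    · intro h f hf
      exact h hf

end Pool.Agent.H146R3
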