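import Mathlib

/-!
Loops from synchronizing automata, and a concrete synchronizing automaton.
-/

namespace Pool.Agent.H146R3.Loop

/-! ### The general lemma -/

section automaton

variable {A Q : Type*} {n : ℕ}

/-- Elements attached to the states of an automaton with transition function `δ` and labels `φ`. -/
def ev (f : (Fin n → A) → A) (δ : Q → Fin n → Q) (φ : Q → A) : ℕ → Q → A
  | 0, q => φ q
  | k + 1, q => f (fun j => ev f δ φ k (δ q j))

theorem ev_adj {R : A → A → Prop} {f : (Fin n → A) → A} {δ : Q → Fin n → Q} {φ : Q → A}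
    (hcompat : ∀ x y : Fin n → A, (∀ i, R (x i) (y i)) → R (f x) (f y))
    (h0 : ∀ q, R (φ q) (f (fun j => φ (δ q j)))) :
    ∀ k q, R (ev f δ φ k q) (ev f δ φ (k + 1) q) := by
  intro k
  induction k with
  | zero => intro q; exact h0 q
  | succ k ih =>
    intro q
    show R (f (fun j => ev f δ φ k (δ q j))) (f (fun j => ev f δ φ (k + 1) (δ q j)))
    exact hcompat _ _ (fun j => ih (δ q j))

theorem ev_mem {f : (Fin n → A) → A} {δ : Q → Fin n → Q} {φ : Q → A} {K : Set A}
    (hK : ∀ x : Fin n → A, (∀ i, x i ∈ K) → f x ∈ K) (hφ : ∀ q, φ q ∈ K) :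
    ∀ k q, ev f δ φ k q ∈ K := by
  intro k
  induction k with
  | zero => intro q; exact hφ q
  | succ k ih => intro q; exact hK _ (fun j => ih (δ q j))

theorem ev_sync {f : (Fin n → A) → A} {δ : Q → Fin n → Q} {φ : Q → A} :
    ∀ (k : ℕ) (q q' : Q), (∀ w : List (Fin n), w.length = k →
      φ (w.foldl δ q) = φ (w.foldl δ q')) → ev f δ φ k q = ev f δ φ k q' := by
  intro k
  induction k with
  | zero => intro q q' h; exact h [] rfl
  | succ k ih =>
    intro q q' h
    show f (fun j => ev f δ φ k (δ q j)) = f (fun j => ev f δ φ k (δ q' j))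
    congr 1
    funext j
    apply ih
    intro w hw
    exact h (j :: w) (by simp [hw])

/-- If the labels of an automaton satisfy the adjacency condition and the automaton is
synchronizing (with respect to labels), then there is a loop. -/
theorem loop_of_sync {R : A → A → Prop} {f : (Fin n → A) → A} {δ : Q → Fin n → Q} {φ : Q → A}
    (hidem : ∀ x, f (fun _ => x) = x)
    (hcompat : ∀ x y : Fin n → A, (∀ i, R (x i) (y i)) → R (f x) (f y))
    (h0 : ∀ q, R (φ q) (f (fun j => φ (δ q j)))) {K : Set A}
    (hK : ∀ x : Fin n → A, (∀ i, x i ∈ K) → f x ∈ K) (hφ : ∀ q, φ q ∈ K)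
    (d : ℕ) (hd : ∀ (q q' : Q) (w : List (Fin n)), w.length = d →
      φ (w.foldl δ q) = φ (w.foldl δ q')) (q : Q) : ∃ t ∈ K, R t t := by
  refine ⟨ev f δ φ d q, ev_mem hK hφ d q, ?_⟩
  have h1 := ev_adj hcompat h0 d q
  have h2 : ev f δ φ (d + 1) q = ev f δ φ d q := by
    show f (fun j => ev f δ φ d (δ q j)) = _
    have : (fun j => ev f δ φ d (δ q j)) = fun _ => ev f δ φ d q := by
      funext j
      exact ev_sync d _ _ (hd _ _)
    rw [this, hidem]
  rwa [h2] at h1

end automaton

/-! ### The concrete automaton -/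

section concrete

variable {n : ℕ}

/-- the update of the pair (last letter, length of the current run, capped at `M`) -/
def runStep (M : ℕ) (σ : Fin n × ℕ) (j : Fin n) : Fin n × ℕ :=
  (j, if j = σ.1 then min (σ.2 + 1) M else 1)

/-- one step towards `0` -/
def towards (h L : ℕ) : ℕ := if L ≤ h then L - 1 else h

/-- first kind of steps away from `0` -/
def awayD (h L : ℕ) : ℕ := if L ≤ h then L + 1 else h

/-- second kind of steps away from `0` -/
def awayU (h L : ℕ) : ℕ := if L < h then L + 1 else if L ≤ h + 1 then h + 2 else h + 1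

/-- the update of the label -/
def labStep (h M L : ℕ) (σ : Fin n × ℕ) (j : Fin n) : ℕ :=
  if (runStep M σ j).2 = M then towards h L
  else if j < σ.1 then awayD h L else awayU h L

/-- the automaton -/
def step (h M : ℕ) (st : ℕ × (Fin n × ℕ)) (j : Fin n) : ℕ × (Fin n × ℕ) :=
  (labStep h M st.1 st.2 j, runStep M st.2 j)

/-- All words of length at least `k` map all the labels from `S` to the same label. -/
def Syn (h M : ℕ) (S : Set ℕ) (σ : Fin n × ℕ) (k : ℕ) : Prop :=
  ∀ w : List (Fin n), k ≤ w.length → ∀ L ∈ S, ∀ L' ∈ S,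
    (w.foldl (step h M) (L, σ)).1 = (w.foldl (step h M) (L', σ)).1

theorem Syn.step {h M : ℕ} {S : Set ℕ} {σ : Fin n × ℕ} {k : ℕ}
    (H : ∀ j, ∃ S' : Set ℕ, (∀ L ∈ S, labStep h M L σ j ∈ S') ∧ Syn h M S' (runStep M σ j) k) :
    Syn h M S σ (k + 1) := by
  intro w hw L hL L' hL'
  match w, hw with
  | j :: w, hw =>
    obtain ⟨S', hS', hsyn⟩ := H j
    exact hsyn w (by simpa using hw) _ (hS' L hL) _ (hS' L' hL')

theorem Syn.single {h M : ℕ} {L0 : ℕ} {σ : Fin n × ℕ} {k : ℕ} : Syn h M {L0} σ k := by
  intro w _ L hL L' hL'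
  rw [Set.mem_singleton_iff.mp hL, Set.mem_singleton_iff.mp hL']

theorem Syn.mono {h M : ℕ} {S : Set ℕ} {σ : Fin n × ℕ} {k k' : ℕ} (H : Syn h M S σ k)
    (hk : k ≤ k') : Syn h M S σ k' := fun w hw => H w (le_trans hk hw)

theorem runStep_lt {M : ℕ} (hM : 2 < M) (σ : Fin n × ℕ) (j : Fin n) (hσ : σ.2 + 1 < M) :
    (runStep M σ j).2 < M ∧ (runStep M σ j).2 ≤ σ.2 + 1 ∧ (runStep M σ j).2 ≠ M := by
  unfold runStep
  simp only
  split_ifs with h
  · omega
  · omega

theorem syn1 {h M : ℕ} (hM : 3 < M) : ∀ (k : ℕ) (σ : Fin n × ℕ), σ.1.val ≤ k → σ.2 + 1 < M →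
    Syn h M {L | L = h ∨ L = h + 1} σ (k + 1) := by
  intro k
  induction k with
  | zero =>
    intro σ hk hσ
    apply Syn.step
    intro j
    have hj : ¬ j < σ.1 := by
      rw [Fin.lt_def]; omega
    refine ⟨{h + 2}, ?_, Syn.single⟩
    intro L hL
    have h1 := (runStep_lt (by omega) σ j hσ).2.2
    unfold labStep
    rw [if_neg h1, if_neg hj]
    unfold awayU
    simp only [Set.mem_setOf_eq] at hL
    simp only [Set.mem_singleton_iff]
    rcases hL with rfl | rfl
    · simp
    · simp
  | succ k ih =>
    intro σ hk hσ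
    apply Syn.step
    intro j
    have h1 := (runStep_lt (by omega) σ j hσ).2.2
    by_cases hj : j < σ.1
    · refine ⟨{L | L = h ∨ L = h + 1}, ?_, ih _ ?_ ?_⟩
      · intro L hL
        unfold labStep
        rw [if_neg h1, if_pos hj]
        unfold awayD
        simp only [Set.mem_setOf_eq] at hL ⊢
        rcases hL with rfl | rfl
        · simp
        · simp
      · have := Fin.lt_def.mp hj
        show j.val ≤ k
        omega
      · have : (runStep M σ j).2 = 1 := by
          unfold runStep
          simp only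
          rw [if_neg (ne_of_lt hj)]
        omega
    · refine ⟨{h + 2}, ?_, Syn.single⟩
      intro L hL
      unfold labStep
      rw [if_neg h1, if_neg hj]
      unfold awayU
      simp only [Set.mem_setOf_eq] at hL
      simp only [Set.mem_singleton_iff]
      rcases hL with rfl | rfl
      · simp
      · simp

theorem syn2 {h M : ℕ} (hM : 3 < M) : ∀ (k : ℕ) (σ : Fin n × ℕ), σ.2 < M →
    n * M ≤ σ.1.val * M + σ.2 + k → Syn h M {L | L = h + 1 ∨ L = h + 2} σ (k + 1) := by
  intro k
  induction k with
  | zero =>
    intro σ hσ hk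
    exfalso
    have h1 : σ.1.val + 1 ≤ n := σ.1.isLt
    have h2 : (σ.1.val + 1) * M ≤ n * M := Nat.mul_le_mul_right M h1
    rw [add_mul, one_mul] at h2
    omega
  | succ k ih =>
    intro σ hσ hk
    apply Syn.step
    intro j
    by_cases h1 : (runStep M σ j).2 = M
    · refine ⟨{h}, ?_, Syn.single⟩
      intro L hL
      unfold labStep
      rw [if_pos h1]
      unfold towards
      simp only [Set.mem_setOf_eq] at hL
      simp only [Set.mem_singleton_iff]
      rcases hL with rfl | rfl
      · simp
      · simp
    · by_cases hj : j < σ.1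
      · refine ⟨{h}, ?_, Syn.single⟩
        intro L hL
        unfold labStep
        rw [if_neg h1, if_pos hj]
        unfold awayD
        simp only [Set.mem_setOf_eq] at hL
        simp only [Set.mem_singleton_iff]
        rcases hL with rfl | rfl
        · simp
        · simp
      · refine ⟨{L | L = h + 1 ∨ L = h + 2}, ?_, ih _ ?_ ?_⟩
        · intro L hL
          unfold labStep
          rw [if_neg h1, if_neg hj]
          unfold awayU
          simp only [Set.mem_setOf_eq] at hL ⊢
          rcases hL with rfl | rfl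
          · simp
          · simp
        · unfold runStep at h1 ⊢
          simp only at h1 ⊢
          split_ifs at h1 ⊢ <;> omega
        · by_cases hj2 : j = σ.1
          · have h3 : (runStep M σ j) = (σ.1, min (σ.2 + 1) M) := by
              unfold runStep
              rw [if_pos hj2, hj2]
            rw [h3] at h1 ⊢
            simp only at h1 ⊢
            omega
          · have h3 : (runStep M σ j) = (j, 1) := by
              unfold runStep
              rw [if_neg hj2]
            rw [h3]
            simp only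
            have h4 : σ.1.val + 1 ≤ j.val := by
              have h5 : σ.1 < j := lt_of_le_of_ne (not_lt.mp hj) (Ne.symm hj2)
              exact Fin.lt_def.mp h5
            have h6 : (σ.1.val + 1) * M ≤ j.val * M := Nat.mul_le_mul_right M h4
            rw [add_mul, one_mul] at h6
            omega

theorem syn3 {h M : ℕ} (hM : 3 < M) (σ : Fin n × ℕ) (hσ : σ.2 + 1 < M) :
    Syn h M {L | h ≤ L} σ (n + n * M + 2) := by
  apply Syn.step
  intro j
  have h1 := (runStep_lt (by omega) σ j hσ).2.2
  have h2 := (runStep_lt (by omega) σ j hσ).1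
  by_cases hj : j < σ.1
  · refine ⟨{L | L = h ∨ L = h + 1}, ?_, (syn1 hM n _ ?_ ?_).mono (by omega)⟩
    · intro L hL
      unfold labStep
      rw [if_neg h1, if_pos hj]
      unfold awayD
      simp only [Set.mem_setOf_eq] at hL ⊢
      split_ifs <;> omega
    · exact j.isLt.le
    · have : (runStep M σ j).2 = 1 := by
        unfold runStep
        simp only
        rw [if_neg (ne_of_lt hj)]
      omega
  · refine ⟨{L | L = h + 1 ∨ L = h + 2}, ?_, (syn2 hM (n * M) _ h2 (by omega)).mono (by omega)⟩
    intro L hL
    unfold labStep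
    rw [if_neg h1, if_neg hj]
    unfold awayU
    simp only [Set.mem_setOf_eq] at hL ⊢
    split_ifs <;> omega

theorem syn4 {h M : ℕ} (hM : 3 < M) : ∀ (t i : ℕ) (σ : Fin n × ℕ), i + t = h →
    σ.2 + t + 1 < M → Syn h M {L | i ≤ L} σ (t + (n + n * M + 2)) := by
  intro t
  induction t with
  | zero =>
    intro i σ hi hσ
    have : i = h := by omega
    subst this
    exact (syn3 hM σ (by omega)).mono (by omega)
  | succ t ih =>
    intro i σ hi hσ
    have e : t + 1 + (n + n * M + 2) = t + (n + n * M + 2) + 1 := by omega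
    rw [e]
    apply Syn.step
    intro j
    obtain ⟨h2, h3, h1⟩ := runStep_lt (M := M) (by omega) σ j (by omega)
    refine ⟨{L | i + 1 ≤ L}, ?_, ih (i + 1) _ (by omega) (by omega)⟩
    intro L hL
    unfold labStep
    rw [if_neg h1]
    simp only [Set.mem_setOf_eq] at hL ⊢
    split_ifs
    · unfold awayD
      split_ifs <;> omega
    · unfold awayU
      split_ifs <;> omega

theorem syn5 {h M : ℕ} (hM : h + 3 < M) (ℓ : Fin n) :
    Syn h M Set.univ (ℓ, 1) (h + (n + n * M + 2)) := by
  intro w hw L _ L' _
  exact syn4 (by omega) h 0 (ℓ, 1) (by omega) (by simp only; omega) w hw L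
    (Nat.zero_le L) L' (Nat.zero_le L')

theorem syn6a {h M : ℕ} (hM : h + 3 < M) : ∀ (i : ℕ), i ≤ h → ∀ (ℓ : Fin n),
    Syn h M {L | L ≤ i} (ℓ, M) (i + 1 + (h + (n + n * M + 2))) := by
  intro i
  induction i with
  | zero =>
    intro _ ℓ w _ L hL L' hL'
    simp only [Set.mem_setOf_eq, Nat.le_zero] at hL hL'
    rw [hL, hL']
  | succ i ih =>
    intro hi ℓ
    have e : i + 1 + 1 + (h + (n + n * M + 2)) = i + 1 + (h + (n + n * M + 2)) + 1 := by omega
    rw [e]
    apply Syn.step
    intro j
    by_cases hj : j = ℓ
    · have h3 : (runStep M (ℓ, M) j) = (ℓ, M) := by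
        unfold runStep
        rw [if_pos hj, hj]
        simp
      refine ⟨{L | L ≤ i}, ?_, ?_⟩
      · intro L hL
        unfold labStep
        rw [h3]
        simp only [if_true]
        unfold towards
        simp only [Set.mem_setOf_eq] at hL ⊢
        rw [if_pos (by omega)]
        omega
      · rw [h3]
        exact ih (by omega) ℓ
    · have h3 : (runStep M (ℓ, M) j) = (j, 1) := by
        unfold runStep
        rw [if_neg hj]
      refine ⟨Set.univ, fun _ _ => trivial, ?_⟩
      rw [h3]
      exact (syn5 hM j).mono (by omega)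

theorem syn6b {h M : ℕ} (hM : h + 3 < M) : ∀ (t : ℕ) (σ : Fin n × ℕ), M ≤ σ.2 + t →
    Syn h M Set.univ σ (t + 1 + (h + 1 + (h + (n + n * M + 2)))) := by
  intro t
  induction t with
  | zero =>
    intro σ hσ
    have e : 0 + 1 + (h + 1 + (h + (n + n * M + 2))) = (h + 1 + (h + (n + n * M + 2))) + 1 := by
      omega
    rw [e]
    apply Syn.step
    intro j
    by_cases hj : j = σ.1
    · have h3 : (runStep M σ j) = (σ.1, M) := by
        unfold runStep
        rw [if_pos hj, hj]
        congr 1
        omega
      refine ⟨{L | L ≤ h}, ?_, ?_⟩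
      · intro L _
        unfold labStep
        rw [h3]
        simp only [if_true]
        unfold towards
        simp only [Set.mem_setOf_eq]
        split_ifs <;> omega
      · rw [h3]
        exact syn6a hM h le_rfl σ.1
    · have h3 : (runStep M σ j) = (j, 1) := by
        unfold runStep
        rw [if_neg hj]
      refine ⟨Set.univ, fun _ _ => trivial, ?_⟩
      rw [h3]
      exact (syn5 hM j).mono (by omega)
  | succ t ih =>
    intro σ hσ
    have e : t + 1 + 1 + (h + 1 + (h + (n + n * M + 2))) =
      (t + 1 + (h + 1 + (h + (n + n * M + 2)))) + 1 := by omega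
    rw [e]
    apply Syn.step
    intro j
    by_cases hj : j = σ.1
    · by_cases h4 : σ.2 + 1 < M
      · have h3 : (runStep M σ j) = (σ.1, σ.2 + 1) := by
          unfold runStep
          rw [if_pos hj, hj]
          congr 1
          omega
        refine ⟨Set.univ, fun _ _ => trivial, ?_⟩
        rw [h3]
        exact ih _ (by simp only; omega)
      · have h3 : (runStep M σ j) = (σ.1, M) := by
          unfold runStep
          rw [if_pos hj, hj]
          congr 1
          omega
        refine ⟨{L | L ≤ h}, ?_, ?_⟩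
        · intro L _
          unfold labStep
          rw [h3]
          simp only [if_true]
          unfold towards
          simp only [Set.mem_setOf_eq]
          split_ifs <;> omega
        · rw [h3]
          exact (syn6a hM h le_rfl σ.1).mono (by omega)
    · have h3 : (runStep M σ j) = (j, 1) := by
        unfold runStep
        rw [if_neg hj]
      refine ⟨Set.univ, fun _ _ => trivial, ?_⟩
      rw [h3]
      exact (syn5 hM j).mono (by omega)

/-- the second component of the automaton -/
theorem foldl_snd (h M : ℕ) (w : List (Fin n)) : ∀ st : ℕ × (Fin n × ℕ),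
    (w.foldl (step h M) st).2 = w.foldl (runStep M) st.2 := by
  induction w with
  | nil => intro st; rfl
  | cons j w ih => intro st; exact ih _

theorem run_sync {M : ℕ} (hM : 1 ≤ M) : ∀ (t : ℕ) (w : List (Fin n)), t ≤ w.length →
    ∀ (ℓ : Fin n) (r r' : ℕ), r ≤ M → r' ≤ M → M ≤ r + t → M ≤ r' + t →
      w.foldl (runStep M) (ℓ, r) = w.foldl (runStep M) (ℓ, r') := by
  intro t
  induction t with
  | zero =>
    intro w _ ℓ r r' h1 h2 h3 h4
    have : r = r' := by omega
    rw [this]
  | succ t ih =>
    intro w hw ℓ r r' h1 h2 h3 h4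
    match w, hw with
    | j :: w, hw =>
      simp only [List.foldl_cons]
      by_cases hj : j = ℓ
      · have e1 : runStep M (ℓ, r) j = (ℓ, min (r + 1) M) := by
          unfold runStep; rw [if_pos hj, hj]
        have e2 : runStep M (ℓ, r') j = (ℓ, min (r' + 1) M) := by
          unfold runStep; rw [if_pos hj, hj]
        rw [e1, e2]
        apply ih w (by simpa using hw) <;> omega
      · have e1 : runStep M (ℓ, r) j = (j, 1) := by
          unfold runStep; rw [if_neg hj]
        have e2 : runStep M (ℓ, r') j = (j, 1) := by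
          unfold runStep; rw [if_neg hj]
        rw [e1, e2]

theorem run_sync' {M : ℕ} (hM : 1 ≤ M) (w : List (Fin n)) (hw : M + 1 ≤ w.length)
    (σ σ' : Fin n × ℕ) : w.foldl (runStep M) σ = w.foldl (runStep M) σ' := by
  match w, hw with
  | j :: w, hw =>
    simp only [List.foldl_cons]
    have e : ∀ σ : Fin n × ℕ, runStep M σ j = (j, (runStep M σ j).2) := fun σ => rfl
    have hle : ∀ σ : Fin n × ℕ, (runStep M σ j).2 ≤ M := by
      intro σ
      unfold runStep
      simp only
      split_ifs <;> omega
    rw [e σ, e σ']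
    exact run_sync hM M w (by simpa using hw) j _ _ (hle σ) (hle σ') (by omega) (by omega)

/-- The automaton is synchronizing. -/
theorem automaton_sync (n h : ℕ) : ∃ d, ∀ (st st' : ℕ × (Fin n × ℕ)) (w : List (Fin n)),
    w.length = d → (w.foldl (step h (h + 4)) st).1 = (w.foldl (step h (h + 4)) st').1 := by
  obtain ⟨K, hK⟩ : ∃ K, K = (h + 4) + 1 + (h + 1 + (h + (n + n * (h + 4) + 2))) := ⟨_, rfl⟩
  refine ⟨(h + 4 + 1) + K, ?_⟩
  intro st st' w hw
  have hsplit : w = w.take (h + 4 + 1) ++ w.drop (h + 4 + 1) := (List.take_append_drop _ _).symm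
  have hlen1 : (w.take (h + 4 + 1)).length = h + 4 + 1 := by
    rw [List.length_take, hw]; omega
  have hlen2 : (w.drop (h + 4 + 1)).length = K := by
    rw [List.length_drop, hw]; omega
  rw [hsplit, List.foldl_append, List.foldl_append]
  generalize w.take (h + 4 + 1) = u at *
  generalize w.drop (h + 4 + 1) = v at *
  have h1 : (u.foldl (step h (h + 4)) st).2 = (u.foldl (step h (h + 4)) st').2 := by
    rw [foldl_snd, foldl_snd]
    exact run_sync' (by omega) u (by omega) _ _
  have h2 : u.foldl (step h (h + 4)) st' =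
      ((u.foldl (step h (h + 4)) st').1, (u.foldl (step h (h + 4)) st).2) := by
    rw [h1]
  rw [h2]
  exact syn6b (h := h) (M := h + 4) (by omega) (h + 4) _ (by omega) v (by omega) _ trivial _
    trivial

end concrete

end Pool.Agent.H146R3.Loop
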