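import Pool.Agent.H146R3.LoopAutomaton

/-!
The local loop lemma for odd cycles.
-/

namespace Pool.Agent.H146R3.Loop

variable {A : Type*} {n : ℕ}

/-- Loop from a triangle joined to `a = v 0` by a path. -/
theorem loop_of_triangle (R : A → A → Prop) (hsymm : ∀ x y, R x y → R y x)
    (hn : 0 < n) (f : (Fin n → A) → A) (hidem : ∀ x, f (fun _ => x) = x)
    (hcompat : ∀ x y : Fin n → A, (∀ i, R (x i) (y i)) → R (f x) (f y)) (K : Set A)
    (hK : ∀ x : Fin n → A, (∀ i, x i ∈ K) → f x ∈ K) (h : ℕ) (v : ℕ → A)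
    (hv : ∀ i < h, R (v i) (v (i + 1))) (q s : A) (hq : R (v h) q) (hs : R (v h) s) (hqs : R q s)
    (hvK : ∀ i ≤ h, v i ∈ K) (hqK : q ∈ K) (hsK : s ∈ K)
    (habs : ∀ (j : Fin n) (b : Fin n → A), (∀ i, i ≠ j → R (v 0) (b i)) → b j = v 0 →
      R (v 0) (f b)) : ∃ t ∈ K, R t t := by
  classical
  let φ : ℕ → A := fun L => if L ≤ h then v L else if L = h + 1 then q else s
  have φ1 : ∀ L, L ≤ h → φ L = v L := fun L hL => if_pos hL
  have φ2 : φ (h + 1) = q := by
    show (if h + 1 ≤ h then v (h + 1) else if h + 1 = h + 1 then q else s) = q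
    rw [if_neg (by omega), if_pos rfl]
  have φ3 : ∀ L, h + 2 ≤ L → φ L = s := by
    intro L hL
    show (if L ≤ h then v L else if L = h + 1 then q else s) = s
    rw [if_neg (by omega), if_neg (by omega)]
  have hD : ∀ L, R (φ L) (φ (awayD h L)) := by
    intro L
    unfold awayD
    by_cases h1 : L < h
    · rw [if_pos (by omega), φ1 L h1.le, φ1 (L + 1) h1]
      exact hv L h1
    · by_cases h2 : L = h
      · subst h2
        rw [if_pos le_rfl, φ1 _ le_rfl, φ2]
        exact hq
      · rw [if_neg (by omega), φ1 _ le_rfl]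
        by_cases h3 : L = h + 1
        · rw [h3, φ2]; exact hsymm _ _ hq
        · rw [φ3 L (by omega)]; exact hsymm _ _ hs
  have hU : ∀ L, R (φ L) (φ (awayU h L)) := by
    intro L
    unfold awayU
    by_cases h1 : L < h
    · rw [if_pos h1, φ1 L h1.le, φ1 (L + 1) h1]
      exact hv L h1
    · rw [if_neg h1]
      by_cases h2 : L ≤ h + 1
      · rw [if_pos h2, φ3 (h + 2) le_rfl]
        by_cases h3 : L = h
        · rw [h3, φ1 _ le_rfl]; exact hs
        · have : L = h + 1 := by omega
          rw [this, φ2]; exact hqs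
      · rw [if_neg h2, φ3 L (by omega), φ2]
        exact hsymm _ _ hqs
  have hT : ∀ L, L ≠ 0 → R (φ L) (φ (towards h L)) := by
    intro L hL
    unfold towards
    by_cases h1 : L ≤ h
    · rw [if_pos h1, φ1 L h1, φ1 (L - 1) (by omega)]
      have := hv (L - 1) (by omega)
      rw [Nat.sub_add_cancel (by omega)] at this
      exact hsymm _ _ this
    · rw [if_neg h1, φ1 _ le_rfl]
      by_cases h3 : L = h + 1
      · rw [h3, φ2]; exact hsymm _ _ hq
      · rw [φ3 L (by omega)]; exact hsymm _ _ hs
  obtain ⟨d, hd⟩ := automaton_sync n h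
  refine loop_of_sync (Q := ℕ × (Fin n × ℕ)) (δ := step h (h + 4)) (φ := fun st => φ st.1)
    hidem hcompat ?_ hK ?_ d ?_ (0, (⟨0, hn⟩, 0))
  · rintro ⟨L, σ⟩
    simp only
    by_cases hL : L = 0
    · subst hL
      rw [φ1 0 (Nat.zero_le _)]
      by_cases hT' : (runStep (h + 4) σ σ.1).2 = h + 4
      · apply habs σ.1
        · intro j hj
          have h1 : (runStep (h + 4) σ j).2 ≠ h + 4 := by
            unfold runStep
            simp only
            rw [if_neg hj]
            omega
          show R (v 0) (φ (labStep h (h + 4) 0 σ j))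
          unfold labStep
          rw [if_neg h1, ← φ1 0 (Nat.zero_le _)]
          split_ifs
          · exact hD 0
          · exact hU 0
        · show φ (labStep h (h + 4) 0 σ σ.1) = v 0
          unfold labStep
          rw [if_pos hT']
          unfold towards
          rw [if_pos (Nat.zero_le _)]
          exact φ1 0 (Nat.zero_le _)
      · rw [← hidem (v 0)]
        apply hcompat
        intro j
        have h1 : (runStep (h + 4) σ j).2 ≠ h + 4 := by
          by_cases hj : j = σ.1
          · rw [hj]; exact hT'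
          · unfold runStep
            simp only
            rw [if_neg hj]
            omega
        show R (v 0) (φ (labStep h (h + 4) 0 σ j))
        unfold labStep
        rw [if_neg h1, ← φ1 0 (Nat.zero_le _)]
        split_ifs
        · exact hD 0
        · exact hU 0
    · have : R (f (fun _ => φ L)) (f (fun j => φ (step h (h + 4) (L, σ) j).1)) := by
        apply hcompat
        intro j
        show R (φ L) (φ (labStep h (h + 4) L σ j))
        unfold labStep
        split_ifs
        · exact hT L hL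
        · exact hD L
        · exact hU L
      rwa [hidem] at this
  · rintro ⟨L, σ⟩
    simp only
    by_cases h1 : L ≤ h
    · rw [φ1 L h1]; exact hvK L h1
    · by_cases h2 : L = h + 1
      · rw [h2, φ2]; exact hqK
      · rw [φ3 L (by omega)]; exact hsK
  · intro st st' w hw
    show φ _ = φ _
    rw [hd st st' w hw]

/-! ### Walks -/

/-- there is a walk of length `k` from `x` to `y` -/
def P (R : A → A → Prop) : ℕ → A → A → Prop
  | 0, x, y => x = y
  | k + 1, x, y => ∃ z, R x z ∧ P R k z y

section walks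

variable {R : A → A → Prop}

theorem P_add {j k : ℕ} {x y z : A} (h1 : P R j x y) (h2 : P R k y z) : P R (j + k) x z := by
  induction j generalizing x with
  | zero => have : x = y := h1; subst this; rw [zero_add]; exact h2
  | succ j ih =>
    obtain ⟨w, hw, h3⟩ := h1
    rw [Nat.add_right_comm]
    exact ⟨w, hw, ih h3⟩

theorem P_one {x y : A} (h : R x y) : P R 1 x y := ⟨y, h, rfl⟩

theorem P_symm (hsymm : ∀ x y, R x y → R y x) {k : ℕ} : ∀ {x y : A}, P R k x y → P R k y x := by
  induction k with
  | zero => intro x y h; exact Eq.symm h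
  | succ k ih =>
    rintro x y ⟨z, hz, h⟩
    exact P_add (ih h) (P_one (hsymm _ _ hz))

theorem P_compat {n : ℕ} {f : (Fin n → A) → A}
    (hcompat : ∀ x y : Fin n → A, (∀ i, R (x i) (y i)) → R (f x) (f y)) {k : ℕ} :
    ∀ x y : Fin n → A, (∀ i, P R k (x i) (y i)) → P R k (f x) (f y) := by
  induction k with
  | zero =>
    intro x y h
    have : x = y := funext h
    rw [this]
    exact rfl
  | succ k ih =>
    intro x y h
    choose z hz1 hz2 using h
    exact ⟨f z, hcompat _ _ hz1, ih z y hz2⟩

theorem P_even (hsymm : ∀ x y, R x y → R y x) {x b : A} (h : R x b) (c : ℕ) :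
    P R (2 * c) x x := by
  induction c with
  | zero => exact rfl
  | succ c ih =>
    have : 2 * (c + 1) = 1 + 1 + 2 * c := by ring
    rw [this]
    exact P_add (P_add (P_one h) (P_one (hsymm _ _ h))) ih

theorem P_odd (hsymm : ∀ x y, R x y → R y x) {x y : A} (h : R x y) (c : ℕ) :
    P R (2 * c + 1) x y := P_add (P_even hsymm h c) (P_one h)

/-- every vertex of a walk is connected to the start, as a function -/
theorem P_path {k : ℕ} : ∀ {x y : A}, P R k x y →
    ∃ v : ℕ → A, v 0 = x ∧ v k = y ∧ ∀ i < k, R (v i) (v (i + 1)) := by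
  induction k with
  | zero =>
    intro x y h
    exact ⟨fun _ => x, rfl, h, fun i hi => absurd hi (Nat.not_lt_zero i)⟩
  | succ k ih =>
    rintro x y ⟨z, hz, h⟩
    obtain ⟨v, hv0, hvk, hv⟩ := ih h
    refine ⟨fun i => Nat.casesOn i x v, rfl, hvk, ?_⟩
    intro i hi
    match i with
    | 0 => show R x (v 0); rw [hv0]; exact hz
    | i + 1 => exact hv i (by omega)

theorem P_of_path {v : ℕ → A} {k : ℕ} (h : ∀ i < k, R (v i) (v (i + 1))) : P R k (v 0) (v k) := by
  induction k with
  | zero => exact rfl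
  | succ k ih =>
    exact P_add (ih (fun i hi => h i (by omega))) (P_one (h k (by omega)))

end walks

/-- **The local loop lemma for odd closed walks.** -/
theorem loop_of_odd_walk (R : A → A → Prop) (hsymm : ∀ x y, R x y → R y x)
    (hn : 0 < n) (f : (Fin n → A) → A) (hidem : ∀ x, f (fun _ => x) = x)
    (hcompat : ∀ x y : Fin n → A, (∀ i, R (x i) (y i)) → R (f x) (f y)) (a : A)
    (habs : ∀ (j : Fin n) (b : Fin n → A), (∀ i, i ≠ j → R a (b i)) → b j = a → R a (f b))
    (l : ℕ) (hl : P R (2 * l + 1) a a) : ∃ x, R x x := by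
  classical
  -- a has a neighbour
  obtain ⟨b0, hb0, _⟩ := hl
  have hl : P R (2 * l + 1) a a := ⟨b0, hb0, by assumption⟩
  -- the component of `a`
  let K : Set A := {x | ∃ k, P R k a x}
  have hKeven : ∀ x ∈ K, ∃ c, P R (2 * c) a x := by
    rintro x ⟨k, hk⟩
    rcases Nat.even_or_odd' k with ⟨c, hc | hc⟩
    · exact ⟨c, by rw [← hc]; exact hk⟩
    · refine ⟨l + c + 1, ?_⟩
      have : 2 * (l + c + 1) = (2 * l + 1) + (2 * c + 1) := by ring
      rw [this]
      rw [hc] at hk
      exact P_add hl hk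
  have hK : ∀ x : Fin n → A, (∀ i, x i ∈ K) → f x ∈ K := by
    intro x hx
    choose c hc using fun i => hKeven (x i) (hx i)
    let N := ∑ i, c i
    refine ⟨2 * N, ?_⟩
    rw [← hidem a]
    apply P_compat hcompat
    intro i
    have hle : c i ≤ N := Finset.single_le_sum (f := c) (fun _ _ => Nat.zero_le _)
      (Finset.mem_univ i)
    have : 2 * N = 2 * (N - c i) + 2 * c i := by omega
    rw [this]
    exact P_add (P_even hsymm hb0 _) (hc i)
  -- minimal odd closed walk in the component
  let S : ℕ → Prop := fun c => ∃ x ∈ K, P R (2 * c + 1) x x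
  have hS : ∃ c, S c := ⟨l, a, ⟨0, rfl⟩, hl⟩
  obtain ⟨x0, hx0K, hx0⟩ := Nat.find_spec hS
  have hmin : ∀ c, c < Nat.find hS → ¬ S c := fun c hc => Nat.find_min hS hc
  generalize Nat.find hS = m at hx0 hmin
  match m, hx0, hmin with
  | 0, hx0, _ =>
    obtain ⟨z, hz, hz'⟩ := hx0
    have : z = x0 := hz'
    subst this
    exact ⟨_, hz⟩
  | m + 1, hx0, hmin =>
    exfalso
    -- closed walk x0 ~ x1 ~ x2 ... x0 of length 2 m + 3
    obtain ⟨x1, h01, x2, h12, h20⟩ : ∃ x1, R x0 x1 ∧ ∃ x2, R x1 x2 ∧ P R (2 * m + 1) x2 x0 := by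
      have e : 2 * (m + 1) + 1 = (2 * m + 1) + 1 + 1 := by ring
      rw [e] at hx0
      obtain ⟨x1, h01, x2, h12, h20⟩ := hx0
      exact ⟨x1, h01, x2, h12, h20⟩
    let T : A → A → Prop := P R (2 * m + 1)
    have hTsymm : ∀ x y, T x y → T y x := fun x y h => P_symm hsymm h
    have hRT : ∀ x y, R x y → T x y := fun x y h => P_odd hsymm h m
    obtain ⟨k, hk⟩ := hx0K
    obtain ⟨v, hv0, hvk, hv⟩ := P_path hk
    have hvK : ∀ i ≤ k, v i ∈ K := by
      intro i hi
      refine ⟨i, ?_⟩
      rw [← hv0]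
      exact P_of_path (fun j hj => hv j (by omega))
    have hKR : ∀ x y, x ∈ K → R x y → y ∈ K := by
      rintro x y ⟨j, hj⟩ hxy
      exact ⟨j + 1, P_add hj (P_one hxy)⟩
    have hx1K : x1 ∈ K := hKR x0 x1 ⟨k, hk⟩ h01
    have hx2K : x2 ∈ K := hKR x1 x2 hx1K h12
    obtain ⟨t, htK, ht⟩ := loop_of_triangle T hTsymm hn f hidem (P_compat hcompat) K hK k v
      (fun i hi => hRT _ _ (hv i hi)) x1 x2 (by rw [hvk]; exact hRT _ _ h01)
      (by rw [hvk]; exact hTsymm _ _ h20) (hRT _ _ h12) hvK hx1K hx2K (by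
        intro j b hb hbj
        rw [hv0] at hb hbj ⊢
        -- absorption for walks
        have hx : ∀ i, ∃ z, (i ≠ j → R a z) ∧ (i = j → z = a) ∧ P R (2 * m) z (b i) := by
          intro i
          by_cases hi : i = j
          · refine ⟨a, fun h => absurd hi h, fun _ => rfl, ?_⟩
            rw [hi, hbj]
            exact P_even hsymm hb0 m
          · obtain ⟨z, hz, hz'⟩ := hb i hi
            exact ⟨z, fun _ => hz, fun h => absurd h hi, hz'⟩
        choose z hz1 hz2 hz3 using hx
        exact ⟨f z, habs j z hz1 (hz2 j rfl), P_compat hcompat z b hz3⟩)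
    exact hmin m (Nat.lt_succ_self m) ⟨t, htK, ht⟩

end Pool.Agent.H146R3.Loop
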