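import Pool.Agent.H146R3.LocalLattices

/-!
The complete embedding of the lattice of local transformation monoids on a countably infinite set
`Y` into the lattice of closed permutation groups on a countable set.
-/

namespace Pool.Agent.H146R3

universe u

open Function

variable {Y : Type u}

/-- The vector space over the two-element field with basis all pairs `(i, t)`, `i` a natural
number, `t` a finite sequence of elements of `Y`. -/
abbrev W (Y : Type u) : Type u := (ℕ × List Y) →₀ ZMod 2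

/-- The linear endomorphisms. -/
abbrev EndW (Y : Type u) : Type u := Module.End (ZMod 2) (W Y)

/-- basis vector -/
noncomputable def bv (p : ℕ × List Y) : W Y := Finsupp.single p 1

theorem char_two (w : W Y) : w + w = 0 := by
  ext p
  simp only [Finsupp.add_apply, Finsupp.zero_apply]
  exact CharTwo.add_self_eq_zero _

theorem eq_on_support {T T' : EndW Y} {w : W Y} (h : ∀ p ∈ w.support, T (bv p) = T' (bv p)) :
    T w = T' w := by
  have hw : w = ∑ p ∈ w.support, w p • bv p := by
    conv_lhs => rw [← Finsupp.sum_single w]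
    rw [Finsupp.sum]
    apply Finset.sum_congr rfl
    intro p _
    rw [bv, Finsupp.smul_single, smul_eq_mul, mul_one]
  rw [hw, map_sum, map_sum]
  apply Finset.sum_congr rfl
  intro p hp
  rw [map_smul, map_smul, h p hp]

theorem ext_bv {T T' : EndW Y} (h : ∀ p, T (bv p) = T' (bv p)) : T = T' := by
  apply LinearMap.ext
  intro w
  exact eq_on_support (fun p _ => h p)

/-- The elementary operator: `(j, t)` is mapped to `(i, f t)`, all other `(j', t)` to `0`. -/
noncomputable def E (i j : ℕ) (f : Y → Y) : EndW Y :=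
  Finsupp.linearCombination (ZMod 2) (fun p : ℕ × List Y =>
    if p.1 = j then bv (i, p.2.map f) else 0)

theorem E_bv (i j : ℕ) (f : Y → Y) (p : ℕ × List Y) :
    E i j f (bv p) = if p.1 = j then bv (i, p.2.map f) else 0 := by
  rw [E, bv, Finsupp.linearCombination_single, one_smul]

theorem E_bv_same (i j : ℕ) (f : Y → Y) (t : List Y) :
    E i j f (bv (j, t)) = bv (i, t.map f) := by
  rw [E_bv]; simp

theorem E_bv_ne (i j : ℕ) (f : Y → Y) (p : ℕ × List Y) (h : p.1 ≠ j) :
    E i j f (bv p) = 0 := by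
  rw [E_bv]; simp [h]

theorem E_mul_same (i j l : ℕ) (f g : Y → Y) : E i j f * E j l g = E i l (f ∘ g) := by
  apply ext_bv
  intro p
  rw [Module.End.mul_apply, E_bv, E_bv]
  by_cases h : p.1 = l
  · rw [if_pos h, if_pos h, E_bv_same, List.map_map]
  · rw [if_neg h, if_neg h, map_zero]

theorem E_mul_ne (i j k l : ℕ) (f g : Y → Y) (h : j ≠ k) : E i j f * E k l g = 0 := by
  apply ext_bv
  intro p
  rw [Module.End.mul_apply, E_bv]
  by_cases h' : p.1 = l
  · rw [if_pos h', E_bv_ne _ _ _ _ (fun hh => h hh.symm)]; rfl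
  · rw [if_neg h', map_zero]; rfl

/-- Finite matrices over the monoid algebra. -/
noncomputable def SM (M : Set (Y → Y)) : Submodule (ZMod 2) (EndW Y) :=
  Submodule.span (ZMod 2) {T | ∃ (i j : ℕ) (f : Y → Y), f ∈ M ∧ T = E i j f}

theorem E_mem_SM {M : Set (Y → Y)} {f : Y → Y} (hf : f ∈ M) (i j : ℕ) : E i j f ∈ SM M :=
  Submodule.subset_span ⟨i, j, f, hf, rfl⟩

theorem SM_mono {M N : Set (Y → Y)} (h : M ⊆ N) : SM M ≤ SM N := by
  apply Submodule.span_mono
  rintro T ⟨i, j, f, hf, rfl⟩
  exact ⟨i, j, f, h hf, rfl⟩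

theorem SM_mul {M : Set (Y → Y)} (hM : ∀ f ∈ M, ∀ g ∈ M, f ∘ g ∈ M) {P Q : EndW Y}
    (hP : P ∈ SM M) (hQ : Q ∈ SM M) : P * Q ∈ SM M := by
  induction hP using Submodule.span_induction with
  | zero => rw [zero_mul]; exact Submodule.zero_mem _
  | add x y _ _ hx hy => rw [add_mul]; exact Submodule.add_mem _ hx hy
  | smul c x _ hx => rw [smul_mul_assoc]; exact Submodule.smul_mem _ _ hx
  | mem x hx =>
    obtain ⟨i, j, f, hf, rfl⟩ := hx
    induction hQ using Submodule.span_induction with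
    | zero => rw [mul_zero]; exact Submodule.zero_mem _
    | add x y _ _ hx hy => rw [mul_add]; exact Submodule.add_mem _ hx hy
    | smul c x _ hx => rw [mul_smul_comm]; exact Submodule.smul_mem _ _ hx
    | mem y hy =>
      obtain ⟨k, l, g, hg, rfl⟩ := hy
      by_cases h : j = k
      · subst h
        rw [E_mul_same]
        exact E_mem_SM (hM f hf g hg) _ _
      · rw [E_mul_ne _ _ _ _ _ _ h]
        exact Submodule.zero_mem _

/-- The support of the image of a basis vector. -/
theorem SM_support {M : Set (Y → Y)} {P : EndW Y} (hP : P ∈ SM M) (j : ℕ) (t : List Y) :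
    ∀ p ∈ (P (bv (j, t))).support, ∃ f ∈ M, p.2 = t.map f := by
  classical
  induction hP using Submodule.span_induction with
  | zero => intro p hp; simp at hp
  | add x y _ _ hx hy =>
    intro p hp
    rw [LinearMap.add_apply] at hp
    have := Finsupp.support_add hp
    rw [Finset.mem_union] at this
    rcases this with h | h
    · exact hx p h
    · exact hy p h
  | smul c x _ hx =>
    intro p hp
    rw [LinearMap.smul_apply] at hp
    exact hx p (Finsupp.support_smul hp)
  | mem x hx =>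
    obtain ⟨i, k, f, hf, rfl⟩ := hx
    intro p hp
    by_cases h : j = k
    · subst h
      rw [E_bv_same, bv] at hp
      have := Finsupp.support_single_subset hp
      rw [Finset.mem_singleton] at this
      exact ⟨f, hf, by rw [this]⟩
    · rw [E_bv_ne _ _ _ _ h] at hp
      simp at hp

/-! ### Naturality -/

/-- initial segments of the enumeration -/
def seg (y : ℕ → Y) (n : ℕ) : List Y := (List.range n).map y

/-- selection of coordinates -/
def sel (y : ℕ → Y) (κ : List ℕ) (p : ℕ × List Y) : ℕ × List Y :=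
  (p.1, κ.map (fun k => p.2.getD k (y 0)))

/-- the linear map of a selection -/
noncomputable def re (y : ℕ → Y) (κ : List ℕ) : EndW Y :=
  Finsupp.lmapDomain (ZMod 2) (ZMod 2) (sel y κ)

theorem re_bv (y : ℕ → Y) (κ : List ℕ) (p : ℕ × List Y) : re y κ (bv p) = bv (sel y κ p) := by
  rw [re, bv, Finsupp.lmapDomain_apply, Finsupp.mapDomain_single, bv]

theorem getD_seg_map (y : ℕ → Y) (n : ℕ) (f : Y → Y) (k : ℕ) (hk : k < n) :
    ((seg y n).map f).getD k (y 0) = f (y k) := by
  rw [List.getD_eq_getElem _ _ (by simp [seg, hk])]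
  simp [seg]

theorem sel_seg (y : ℕ → Y) (κ : List ℕ) (n : ℕ) (hκ : ∀ k ∈ κ, k < n) (f : Y → Y) (i : ℕ) :
    sel y κ (i, (seg y n).map f) = (i, (κ.map y).map f) := by
  rw [sel, List.map_map]
  congr 1
  apply List.map_congr_left
  intro k hk
  exact getD_seg_map y n f k (hκ k hk)

theorem SM_nat {M : Set (Y → Y)} {P : EndW Y} (hP : P ∈ SM M) (y : ℕ → Y) (κ : List ℕ) (n : ℕ)
    (hκ : ∀ k ∈ κ, k < n) (j : ℕ) :
    P (bv (j, κ.map y)) = re y κ (P (bv (j, seg y n))) := by
  induction hP using Submodule.span_induction with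
  | zero => simp
  | add x y _ _ hx hy => rw [LinearMap.add_apply, LinearMap.add_apply, hx, hy, map_add]
  | smul c x _ hx => rw [LinearMap.smul_apply, LinearMap.smul_apply, hx, map_smul]
  | mem x hx =>
    obtain ⟨i, k, f, hf, rfl⟩ := hx
    by_cases h : j = k
    · subst h
      rw [E_bv_same, E_bv_same, re_bv, sel_seg y κ n hκ]
    · rw [E_bv_ne _ _ _ _ h, E_bv_ne _ _ _ _ h, map_zero]

/-! ### The closure -/

/-- The pointwise closure of the finite matrices. -/
def Tcl (M : Set (Y → Y)) : Set (W Y → W Y) :=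
  {h | ∀ B : Finset (W Y), ∃ P ∈ SM M, ∀ b ∈ B, P b = h b}

theorem Tcl_mono {M N : Set (Y → Y)} (h : M ⊆ N) : Tcl M ⊆ Tcl N := by
  intro g hg B
  obtain ⟨P, hP, hPB⟩ := hg B
  exact ⟨P, SM_mono h hP, hPB⟩

theorem Tcl_linear {M : Set (Y → Y)} {h : W Y → W Y} (hh : h ∈ Tcl M) :
    ∃ T : EndW Y, ∀ w, T w = h w := by
  classical
  have hadd : ∀ x y, h (x + y) = h x + h y := by
    intro x y
    obtain ⟨P, _, hP⟩ := hh {x, y, x + y}
    rw [← hP x (by simp), ← hP y (by simp), ← hP (x + y) (by simp), map_add]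
  have h0 : h 0 = 0 := by
    obtain ⟨P, _, hP⟩ := hh {0}
    rw [← hP 0 (by simp), map_zero]
  have hsmul : ∀ (c : ZMod 2) x, h (c • x) = c • h x := by
    intro c x
    obtain ⟨P, _, hP⟩ := hh {x, c • x}
    rw [← hP x (by simp), ← hP (c • x) (by simp), map_smul]
  exact ⟨⟨⟨h, hadd⟩, hsmul⟩, fun w => rfl⟩

theorem Tcl_comp {M : Set (Y → Y)} (hM : ∀ f ∈ M, ∀ g ∈ M, f ∘ g ∈ M) {h k : W Y → W Y}
    (hh : h ∈ Tcl M) (hk : k ∈ Tcl M) : h ∘ k ∈ Tcl M := by
  classical
  intro B
  obtain ⟨Q, hQ, hQB⟩ := hk B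
  obtain ⟨P, hP, hPB⟩ := hh (B.image k)
  refine ⟨P * Q, SM_mul hM hP hQ, fun b hb => ?_⟩
  rw [Module.End.mul_apply, hQB b hb, hPB _ (Finset.mem_image_of_mem _ hb)]
  rfl

/-- the truncation to the first `L` coordinates -/
noncomputable def trunc (L : ℕ) : EndW Y := ∑ i ∈ Finset.range L, E i i id

theorem trunc_bv (L : ℕ) (p : ℕ × List Y) :
    trunc L (bv p) = if p.1 < L then bv p else 0 := by
  rw [trunc, LinearMap.sum_apply]
  by_cases h : p.1 < L
  · rw [if_pos h, Finset.sum_eq_single p.1]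
    · rw [E_bv]; simp
    · intro i _ hi
      exact E_bv_ne _ _ _ _ (fun hh => hi hh.symm)
    · intro hh
      exact absurd (Finset.mem_range.mpr h) hh
  · rw [if_neg h]
    apply Finset.sum_eq_zero
    intro i hi
    apply E_bv_ne
    intro hh
    exact h (hh ▸ Finset.mem_range.mp hi)

theorem trunc_mem {M : Set (Y → Y)} (hM : id ∈ M) (L : ℕ) : trunc L ∈ SM M :=
  Submodule.sum_mem _ (fun _ _ => E_mem_SM hM _ _)

/-- all coordinates are smaller than `L` -/
def Low (L : ℕ) (w : W Y) : Prop := ∀ p ∈ w.support, p.1 < L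

theorem exists_low (B : Finset (W Y)) : ∃ L, ∀ b ∈ B, Low L b := by
  classical
  obtain ⟨L, hL⟩ := Finset.exists_nat_subset_range
    (B.biUnion (fun b => b.support.image (fun p => p.1)))
  refine ⟨L, fun b hb p hp => ?_⟩
  apply Finset.mem_range.mp
  apply hL
  rw [Finset.mem_biUnion]
  exact ⟨b, hb, Finset.mem_image_of_mem _ hp⟩

theorem Low.mono {L L' : ℕ} (h : L ≤ L') {w : W Y} (hw : Low L w) : Low L' w :=
  fun p hp => lt_of_lt_of_le (hw p hp) h

theorem trunc_low {L : ℕ} {w : W Y} (hw : Low L w) : trunc L w = w := by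
  have : trunc L w = (1 : EndW Y) w := by
    apply eq_on_support
    intro p hp
    rw [trunc_bv, if_pos (hw p hp)]
    rfl
  rw [this]; rfl

theorem id_mem_Tcl {M : Set (Y → Y)} (hM : id ∈ M) : (id : W Y → W Y) ∈ Tcl M := by
  intro B
  obtain ⟨L, hL⟩ := exists_low B
  exact ⟨trunc L, trunc_mem hM L, fun b hb => trunc_low (hL b hb)⟩

theorem exists_index (y : ℕ ≃ Y) (B : Finset (W Y)) :
    ∃ n, ∀ b ∈ B, ∀ p ∈ b.support, ∀ z ∈ p.2, y.symm z < n := by
  classical
  obtain ⟨L, hL⟩ := Finset.exists_nat_subset_range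
    (B.biUnion (fun b => b.support.biUnion (fun p => p.2.toFinset.image y.symm)))
  refine ⟨L, fun b hb p hp z hz => ?_⟩
  apply Finset.mem_range.mp
  apply hL
  rw [Finset.mem_biUnion]
  refine ⟨b, hb, ?_⟩
  rw [Finset.mem_biUnion]
  exact ⟨p, hp, Finset.mem_image_of_mem _ (List.mem_toFinset.mpr hz)⟩

/-- **Meets.** -/
theorem Tcl_sInf (y : ℕ ≃ Y) (S : Set (LocalMonoid Y)) (hS : S.Nonempty) (h : W Y → W Y)
    (hT : ∀ M ∈ S, h ∈ Tcl M.carrier) : h ∈ Tcl (sInf S).carrier := by
  classical
  obtain ⟨M0, hM0⟩ := hS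
  obtain ⟨T, hTh⟩ := Tcl_linear (hT M0 hM0)
  have happ : ∀ M ∈ S, ∀ B : Finset (W Y), ∃ P ∈ SM M.carrier, ∀ b ∈ B, P b = T b := by
    intro M hM B
    obtain ⟨P, hP, hPB⟩ := hT M hM B
    exact ⟨P, hP, fun b hb => by rw [hPB b hb, hTh]⟩
  suffices hsuff : ∀ B : Finset (W Y), ∃ P ∈ SM (sInf S).carrier, ∀ b ∈ B, P b = T b by
    intro B
    obtain ⟨P, hP, hPB⟩ := hsuff B
    exact ⟨P, hP, fun b hb => by rw [hPB b hb, hTh]⟩
  clear hTh hT h
  -- naturality
  have hnat : ∀ (κ : List ℕ) (n : ℕ), (∀ k ∈ κ, k < n) → ∀ j,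
      T (bv (j, κ.map y)) = re y κ (T (bv (j, seg y n))) := by
    intro κ n hκ j
    obtain ⟨P, hP, hPB⟩ := happ M0 hM0 {bv (j, κ.map y), bv (j, seg y n)}
    rw [← hPB _ (by simp), ← hPB (bv (j, seg y n)) (by simp)]
    exact SM_nat hP y κ n hκ j
  have hsupp : ∀ M ∈ S, ∀ (n j : ℕ), ∀ p ∈ (T (bv (j, seg y n))).support,
      ∃ f ∈ M.carrier, p.2 = (seg y n).map f := by
    intro M hM n j p hp
    obtain ⟨P, hP, hPB⟩ := happ M hM {bv (j, seg y n)}
    rw [← hPB _ (by simp)] at hp
    exact SM_support hP j _ p hp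
  have hext : ∀ (n j : ℕ), ∀ p ∈ (T (bv (j, seg y n))).support,
      ∃ p' ∈ (T (bv (j, seg y (n + 1)))).support, p = sel y (List.range n) p' := by
    intro n j p hp
    have h1 := hnat (List.range n) (n + 1) (fun k hk => by
      have := List.mem_range.mp hk; omega) j
    have h2 : (List.range n).map y = seg y n := rfl
    rw [h2] at h1
    rw [h1, re, Finsupp.lmapDomain_apply] at hp
    have h3 := Finsupp.mapDomain_support hp
    obtain ⟨p', hp', hpp'⟩ := Finset.mem_image.mp h3
    exact ⟨p', hp', hpp'.symm⟩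
  -- König
  have hkey : ∀ (n0 j : ℕ), ∀ p ∈ (T (bv (j, seg y n0))).support,
      ∃ f ∈ (sInf S).carrier, p.2 = (seg y n0).map f := by
    intro n0 j p0 hp0
    choose nx hnx1 hnx2 using hext
    let q : ∀ m : ℕ, {p // p ∈ (T (bv (j, seg y (n0 + m)))).support} := fun m =>
      Nat.rec (motive := fun m => {p // p ∈ (T (bv (j, seg y (n0 + m)))).support}) ⟨p0, hp0⟩
        (fun m r => ⟨nx (n0 + m) j r.1 r.2, hnx1 (n0 + m) j r.1 r.2⟩) m
    have hq0 : (q 0).1 = p0 := rfl
    have hqs : ∀ m, (q m).1 = sel y (List.range (n0 + m)) (q (m + 1)).1 := by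
      intro m
      exact hnx2 (n0 + m) j (q m).1 (q m).2
    have hstep : ∀ m k, k < n0 + m →
        (q m).1.2.getD k (y 0) = (q (m + 1)).1.2.getD k (y 0) := by
      intro m k hk
      conv_lhs => rw [hqs m]
      rw [sel]
      simp only
      rw [List.getD_eq_getElem _ _ (by simp [hk])]
      simp
    have hmono : ∀ m m', m ≤ m' → ∀ k, k < n0 + m →
        (q m).1.2.getD k (y 0) = (q m').1.2.getD k (y 0) := by
      intro m m' hmm'
      induction hmm' with
      | refl => intro k _; rfl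
      | step hle ih =>
        intro k hk
        rw [ih k hk]
        apply hstep
        have : m ≤ _ := hle
        omega
    let f : Y → Y := fun z => (q (y.symm z + 1)).1.2.getD (y.symm z) (y 0)
    have hf : ∀ m k, k < n0 + m → (q m).1.2.getD k (y 0) = f (y k) := by
      intro m k hk
      show _ = (q (y.symm (y k) + 1)).1.2.getD (y.symm (y k)) (y 0)
      rw [Equiv.symm_apply_apply]
      rcases le_total m (k + 1) with h | h
      · exact hmono m (k + 1) h k hk
      · exact (hmono (k + 1) m h k (by omega)).symm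
    refine ⟨f, ?_, ?_⟩
    · intro M hM
      apply (ptClosed_iff _).mp M.closed
      intro A
      obtain ⟨m, hm⟩ := Finset.exists_nat_subset_range (A.image y.symm)
      obtain ⟨g, hg, hqg⟩ := hsupp M hM (n0 + m) j (q m).1 (q m).2
      refine ⟨g, hg, fun z hz => ?_⟩
      have hz' : y.symm z < m := Finset.mem_range.mp (hm (Finset.mem_image_of_mem _ hz))
      have h1 := hf m (y.symm z) (by omega)
      rw [hqg, getD_seg_map _ _ _ _ (by omega), Equiv.apply_symm_apply] at h1
      exact h1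
    · obtain ⟨g, hg, hqg⟩ := hsupp M0 hM0 n0 j p0 hp0
      rw [hqg]
      apply List.map_congr_left
      intro z hz
      obtain ⟨k, hk, rfl⟩ := List.mem_map.mp hz
      have hk' := List.mem_range.mp hk
      have h1 := hf 0 k (by omega)
      rw [hq0, hqg, getD_seg_map _ _ _ _ hk'] at h1
      exact h1
  -- conclusion
  intro B
  obtain ⟨m, hm⟩ := exists_low B
  obtain ⟨n, hn⟩ := exists_index y B
  have : Nonempty Y := ⟨y 0⟩
  choose! F hF1 hF2 using hkey n
  let P : EndW Y := ∑ j ∈ Finset.range m, ∑ p ∈ (T (bv (j, seg y n))).support, E p.1 j (F j p)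
  have hP : P ∈ SM (sInf S).carrier :=
    Submodule.sum_mem _ (fun j _ => Submodule.sum_mem _ (fun p hp => E_mem_SM (hF1 j p hp) _ _))
  have hPseg : ∀ j < m, P (bv (j, seg y n)) = T (bv (j, seg y n)) := by
    intro j hj
    show (∑ j ∈ Finset.range m, ∑ p ∈ (T (bv (j, seg y n))).support, E p.1 j (F j p)) _ = _
    rw [LinearMap.sum_apply, Finset.sum_eq_single j]
    · rw [LinearMap.sum_apply]
      have hone : ∀ (v : W Y), ∑ p ∈ v.support, bv p = v := by
        intro v
        conv_rhs => rw [← Finsupp.sum_single v]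
        rw [Finsupp.sum]
        apply Finset.sum_congr rfl
        intro p hp
        have hvp : v p ≠ 0 := Finsupp.mem_support_iff.mp hp
        have : v p = 1 := by
          revert hvp
          generalize v p = c
          revert c
          decide
        rw [this, bv]
      conv_rhs => rw [← hone (T (bv (j, seg y n)))]
      apply Finset.sum_congr rfl
      intro p hp
      rw [E_bv_same, ← hF2 j p hp]
    · intro j' _ hne
      rw [LinearMap.sum_apply]
      apply Finset.sum_eq_zero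
      intro p _
      exact E_bv_ne _ _ _ _ (fun hh => hne hh.symm)
    · intro hh
      exact absurd (Finset.mem_range.mpr hj) hh
  refine ⟨P, hP, fun b hb => ?_⟩
  apply eq_on_support
  rintro ⟨j, t⟩ hp
  have hj : j < m := hm b hb _ hp
  have ht : t = (t.map y.symm).map y := by
    rw [List.map_map]; simp
  have hκ : ∀ k ∈ t.map y.symm, k < n := by
    intro k hk
    obtain ⟨z, hz, rfl⟩ := List.mem_map.mp hk
    exact hn b hb _ hp z hz
  rw [ht, SM_nat hP y _ n hκ j, hnat _ n hκ j, hPseg j hj]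

/-! ### The group of a monoid -/

/-- The closed group of a local monoid. -/
def toGrp (M : LocalMonoid Y) : LocalGroup (W Y) where
  carrier := {g | (⇑g : W Y → W Y) ∈ Tcl M.carrier ∧ (⇑g⁻¹ : W Y → W Y) ∈ Tcl M.carrier}
  one_mem := by
    constructor
    · exact id_mem_Tcl M.id_mem
    · rw [inv_one]; exact id_mem_Tcl M.id_mem
  mul_mem := by
    rintro f g ⟨hf1, hf2⟩ ⟨hg1, hg2⟩
    constructor
    · rw [Equiv.Perm.coe_mul]
      exact Tcl_comp (fun f hf g hg => M.comp_mem hf hg) hf1 hg1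
    · rw [mul_inv_rev, Equiv.Perm.coe_mul]
      exact Tcl_comp (fun f hf g hg => M.comp_mem hf hg) hg2 hf2
  inv_mem := by
    rintro f ⟨hf1, hf2⟩
    exact ⟨hf2, by rw [inv_inv]; exact hf1⟩
  closed := by
    classical
    rw [permClosed_iff]
    intro g hg
    constructor
    · intro B
      obtain ⟨k, ⟨hk1, hk2⟩, hkB⟩ := hg B
      obtain ⟨P, hP, hPB⟩ := hk1 B
      exact ⟨P, hP, fun b hb => by rw [hPB b hb, hkB b hb]⟩
    · intro B
      obtain ⟨k, ⟨hk1, hk2⟩, hkB⟩ := hg (B.image (fun b => g⁻¹ b))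
      obtain ⟨P, hP, hPB⟩ := hk2 B
      refine ⟨P, hP, fun b hb => ?_⟩
      rw [hPB b hb]
      have h1 := hkB _ (Finset.mem_image_of_mem _ hb)
      show k⁻¹ b = g⁻¹ b
      rw [Equiv.Perm.inv_eq_iff_eq, h1]
      simp

theorem toGrp_mono : Monotone (toGrp : LocalMonoid Y → LocalGroup (W Y)) := by
  intro M N hMN g hg
  exact ⟨Tcl_mono hMN hg.1, Tcl_mono hMN hg.2⟩

theorem E_sq {i j : ℕ} (h : i ≠ j) (f : Y → Y) : E i j f * E i j f = 0 :=
  E_mul_ne _ _ _ _ _ _ h.symm

theorem unip_invol {P : EndW Y} (h : P * P = 0) (w : W Y) : (w + P w) + P (w + P w) = w := by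
  have h1 : P (P w) = 0 := by
    rw [← Module.End.mul_apply, h]; rfl
  rw [map_add, h1, add_zero, add_assoc, char_two, add_zero]

/-- the transvection `w ↦ w + P w` -/
noncomputable def unip (P : EndW Y) (h : P * P = 0) : Equiv.Perm (W Y) where
  toFun w := w + P w
  invFun w := w + P w
  left_inv w := unip_invol h w
  right_inv w := unip_invol h w

theorem unip_apply (P : EndW Y) (h : P * P = 0) (w : W Y) : unip P h w = w + P w := rfl

theorem unip_inv (P : EndW Y) (h : P * P = 0) : (unip P h)⁻¹ = unip P h := by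
  ext1 w
  rfl

theorem unip_mem_toGrp {M : LocalMonoid Y} {f : Y → Y} (hf : f ∈ M.carrier) {i j : ℕ}
    (h : i ≠ j) : unip (E i j f) (E_sq h f) ∈ (toGrp M).carrier := by
  have key : (⇑(unip (E i j f) (E_sq h f)) : W Y → W Y) ∈ Tcl M.carrier := by
    intro B
    obtain ⟨L, hL⟩ := exists_low B
    refine ⟨trunc L + E i j f, Submodule.add_mem _ (trunc_mem M.id_mem L) (E_mem_SM hf _ _),
      fun b hb => ?_⟩
    rw [LinearMap.add_apply, trunc_low (hL b hb)]
    rfl
  exact ⟨key, by rw [unip_inv]; exact key⟩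

theorem toGrp_le (y : ℕ ≃ Y) {M N : LocalMonoid Y} (h : toGrp M ≤ toGrp N) : M ≤ N := by
  classical
  intro f hf
  have h1 := h (unip_mem_toGrp hf (i := 1) (j := 0) (by omega))
  apply (ptClosed_iff _).mp N.closed
  intro A
  obtain ⟨n, hn⟩ := Finset.exists_nat_subset_range (A.image y.symm)
  obtain ⟨P, hP, hPB⟩ := h1.1 {bv (0, seg y n)}
  have h2 := hPB _ (Finset.mem_singleton_self _)
  rw [unip_apply, E_bv_same] at h2
  have h3 : ((1, (seg y n).map f) : ℕ × List Y) ∈ (P (bv (0, seg y n))).support := by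
    rw [h2, Finsupp.mem_support_iff, Finsupp.add_apply, bv, bv, Finsupp.single_apply,
      Finsupp.single_apply]
    simp
  obtain ⟨g, hg, hfg⟩ := SM_support hP 0 _ _ h3
  refine ⟨g, hg, fun z hz => ?_⟩
  have hz' : y.symm z < n := Finset.mem_range.mp (hn (Finset.mem_image_of_mem _ hz))
  have h4 := getD_seg_map y n g _ hz'
  have h5 := getD_seg_map y n f _ hz'
  simp only at hfg
  rw [hfg, h4] at h5
  simpa using h5

/-! ### Joins -/

theorem E_congr {i j : ℕ} {f g : Y → Y} {w : W Y}
    (h : ∀ p ∈ w.support, ∀ z ∈ p.2, f z = g z) : E i j f w = E i j g w := by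
  apply eq_on_support
  intro p hp
  rw [E_bv, E_bv]
  split_ifs with hj
  · congr 2
    apply List.map_congr_left
    intro z hz
    exact h p hp z hz
  · rfl

theorem comm_identity {R : Type*} [Ring R] (a b : R) (h2 : ∀ x : R, x + x = 0) (haa : a * a = 0)
    (hbb : b * b = 0) (hba : b * a = 0) :
    (1 + a) * (1 + b) * (1 + a) * (1 + b) = 1 + a * b := by
  have h1 : (1 + a) * (1 + b) = 1 + (a + b + a * b) := by noncomm_ring
  have h3 : (a + b + a * b) * (a + b + a * b) = a * b := by
    have e1 : a * (a * b) = 0 := by rw [← mul_assoc, haa, zero_mul]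
    have e2 : b * (a * b) = 0 := by rw [← mul_assoc, hba, zero_mul]
    have e3 : a * b * a = 0 := by rw [mul_assoc, hba, mul_zero]
    have e4 : a * b * b = 0 := by rw [mul_assoc, hbb, mul_zero]
    have e5 : a * b * (a * b) = 0 := by rw [← mul_assoc, e3, zero_mul]
    simp only [mul_add, add_mul, haa, hbb, hba, e1, e2, e3, e4, e5, add_zero, zero_add]
  rw [mul_assoc, h1]
  have h4 : (1 + (a + b + a * b)) * (1 + (a + b + a * b))
      = 1 + ((a + b + a * b) + (a + b + a * b)) + (a + b + a * b) * (a + b + a * b) := by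
    noncomm_ring
  rw [h4, h2, h3, add_zero]

theorem End_char_two (P : EndW Y) : P + P = 0 := by
  apply LinearMap.ext
  intro w
  exact char_two (P w)

/-- The monoid used to show that joins are preserved. -/
def backMon (N : LocalGroup (W Y)) (hid : ∀ i j : ℕ, i ≠ j →
    ∃ g ∈ N.carrier, ∀ w, g w = w + E i j id w) : LocalMonoid Y where
  carrier := {f | ∀ i j : ℕ, i ≠ j → ∃ g ∈ N.carrier, ∀ w, g w = w + E i j f w}
  id_mem := hid
  comp_mem := by
    intro f g hf hg i j hij
    obtain ⟨u, hu, hu'⟩ := hf i (i + j + 1) (by omega)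
    obtain ⟨v, hv, hv'⟩ := hg (i + j + 1) j (by omega)
    refine ⟨u * v * u * v, N.mul_mem (N.mul_mem (N.mul_mem hu hv) hu) hv, fun w => ?_⟩
    have hu2 : ∀ w, u w = (1 + E i (i + j + 1) f) w := hu'
    have hv2 : ∀ w, v w = (1 + E (i + j + 1) j g) w := hv'
    have h1 : (u * v * u * v) w = ((1 + E i (i + j + 1) f) * (1 + E (i + j + 1) j g) *
        (1 + E i (i + j + 1) f) * (1 + E (i + j + 1) j g)) w := by
      simp only [Equiv.Perm.mul_apply, Module.End.mul_apply, hu2, hv2]
    have h2 := comm_identity (E i (i + j + 1) f) (E (i + j + 1) j g) End_char_two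
      (E_sq (by omega) f) (E_sq (by omega) g) (E_mul_ne _ _ _ _ _ _ (by omega))
    rw [h1, h2, E_mul_same]
    rfl
  closed := by
    classical
    rw [ptClosed_iff]
    intro f hf i j hij
    refine ⟨unip (E i j f) (E_sq hij f), ?_, fun w => rfl⟩
    apply (permClosed_iff _).mp N.closed
    intro A
    obtain ⟨g, hg, hgA⟩ := hf (A.biUnion (fun b => b.support.biUnion (fun p => p.2.toFinset)))
    obtain ⟨k, hk, hk'⟩ := hg i j hij
    refine ⟨k, hk, fun b hb => ?_⟩
    rw [hk', unip_apply]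
    congr 1
    apply E_congr
    intro p hp z hz
    apply hgA
    rw [Finset.mem_biUnion]
    refine ⟨b, hb, ?_⟩
    rw [Finset.mem_biUnion]
    exact ⟨p, hp, List.mem_toFinset.mpr hz⟩

/-- block matrices -/
noncomputable def Blk (M : Set (Y → Y)) (I J : Set ℕ) : Submodule (ZMod 2) (EndW Y) :=
  Submodule.span (ZMod 2) {T | ∃ (i j : ℕ) (f : Y → Y), i ∈ I ∧ j ∈ J ∧ f ∈ M ∧ T = E i j f}

theorem Blk_mul {M : Set (Y → Y)} {I J : Set ℕ} (hIJ : ∀ i ∈ I, i ∉ J) {P Q : EndW Y}
    (hP : P ∈ Blk M I J) (hQ : Q ∈ Blk M I J) : P * Q = 0 := by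
  induction hP using Submodule.span_induction with
  | zero => rw [zero_mul]
  | add x y _ _ hx hy => rw [add_mul, hx, hy, add_zero]
  | smul c x _ hx => rw [smul_mul_assoc, hx, smul_zero]
  | mem x hx =>
    obtain ⟨i, j, f, hi, hj, hf, rfl⟩ := hx
    induction hQ using Submodule.span_induction with
    | zero => rw [mul_zero]
    | add x y _ _ hx hy => rw [mul_add, hx, hy, add_zero]
    | smul c x _ hx => rw [mul_smul_comm, hx, smul_zero]
    | mem y hy =>
      obtain ⟨k, l, g, hk, hl, hg, rfl⟩ := hy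
      apply E_mul_ne
      intro hh
      subst hh
      exact hIJ _ hk hj

theorem Blk_unip (N : LocalGroup (W Y)) (hid) {I J : Set ℕ} (hIJ : ∀ i ∈ I, i ∉ J) {P : EndW Y}
    (hP : P ∈ Blk (backMon N hid).carrier I J) : ∃ g ∈ N.carrier, ∀ w, g w = w + P w := by
  induction hP using Submodule.span_induction with
  | zero => exact ⟨1, N.one_mem, fun w => by simp⟩
  | add x y hx hy ihx ihy =>
    obtain ⟨g, hg, hg'⟩ := ihx
    obtain ⟨k, hk, hk'⟩ := ihy
    refine ⟨g * k, N.mul_mem hg hk, fun w => ?_⟩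
    have h1 : x (y w) = 0 := by
      rw [← Module.End.mul_apply, Blk_mul hIJ hx hy]; rfl
    rw [Equiv.Perm.mul_apply, hg', hk', map_add, h1, LinearMap.add_apply]
    abel
  | smul c x hx ihx =>
    have hc : c = 0 ∨ c = 1 := by
      revert c; decide
    rcases hc with rfl | rfl
    · exact ⟨1, N.one_mem, fun w => by simp⟩
    · rw [one_smul]; exact ihx
  | mem x hx =>
    obtain ⟨i, j, f, hi, hj, hf, rfl⟩ := hx
    apply hf
    intro hh
    subst hh
    exact hIJ _ hi hj

/-- shift up by `L` -/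
noncomputable def up (L : ℕ) : EndW Y := ∑ i ∈ Finset.range L, E (L + i) i id

/-- shift down by `L` -/
noncomputable def down (L : ℕ) : EndW Y := ∑ i ∈ Finset.range L, E i (L + i) id

theorem up_bv {L : ℕ} {p : ℕ × List Y} (h : p.1 < L) : up L (bv p) = bv (L + p.1, p.2) := by
  rw [up, LinearMap.sum_apply, Finset.sum_eq_single p.1]
  · rw [E_bv]; simp
  · intro i _ hi
    exact E_bv_ne _ _ _ _ (fun hh => hi hh.symm)
  · intro hh
    exact absurd (Finset.mem_range.mpr h) hh

theorem up_bv_high {L : ℕ} {p : ℕ × List Y} (h : L ≤ p.1) : up L (bv p) = 0 := by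
  rw [up, LinearMap.sum_apply]
  apply Finset.sum_eq_zero
  intro i hi
  apply E_bv_ne
  have := Finset.mem_range.mp hi
  omega

theorem down_bv {L : ℕ} {i : ℕ} {t : List Y} (h : i < L) :
    down L (bv (L + i, t)) = bv (i, t) := by
  rw [down, LinearMap.sum_apply, Finset.sum_eq_single i]
  · rw [E_bv]; simp
  · intro i' _ hi
    apply E_bv_ne
    simp only
    omega
  · intro hh
    exact absurd (Finset.mem_range.mpr h) hh

theorem down_bv_low {L : ℕ} {p : ℕ × List Y} (h : p.1 < L) : down L (bv p) = 0 := by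
  rw [down, LinearMap.sum_apply]
  apply Finset.sum_eq_zero
  intro i hi
  apply E_bv_ne
  omega

theorem down_up {L : ℕ} {w : W Y} (hw : Low L w) : down L (up L w) = w := by
  have : ((down L * up L : EndW Y)) w = (1 : EndW Y) w := by
    apply eq_on_support
    intro p hp
    rw [Module.End.mul_apply, up_bv (hw p hp), down_bv (hw p hp)]
    rfl
  exact this

theorem up_up {L : ℕ} {w : W Y} (hw : Low L w) : up L (up L w) = 0 := by
  have : ((up L * up L : EndW Y)) w = (0 : EndW Y) w := by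
    apply eq_on_support
    intro p hp
    rw [Module.End.mul_apply, up_bv (hw p hp), up_bv_high (by simp)]
    rfl
  exact this

theorem down_low {L : ℕ} {w : W Y} (hw : Low L w) : down L w = 0 := by
  have : (down L) w = (0 : EndW Y) w := by
    apply eq_on_support
    intro p hp
    rw [down_bv_low (hw p hp)]
    rfl
  exact this

theorem up_mem {M : Set (Y → Y)} (hM : id ∈ M) (L : ℕ) :
    up L ∈ Blk M (Set.Ici L) (Set.Iio L) := by
  apply Submodule.sum_mem
  intro i hi
  apply Submodule.subset_span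
  exact ⟨L + i, i, id, by simp, by simpa using hi, hM, rfl⟩

theorem down_mem {M : Set (Y → Y)} (hM : id ∈ M) (L : ℕ) :
    down L ∈ Blk M (Set.Iio L) (Set.Ici L) := by
  apply Submodule.sum_mem
  intro i hi
  apply Submodule.subset_span
  exact ⟨i, L + i, id, by simpa using hi, by simp, hM, rfl⟩

theorem up_mul_mem {M : Set (Y → Y)} (L : ℕ) {P : EndW Y} (hP : P ∈ SM M) :
    up L * P * trunc L ∈ Blk M (Set.Ici L) (Set.Iio L) := by
  induction hP using Submodule.span_induction with
  | zero => rw [mul_zero, zero_mul]; exact Submodule.zero_mem _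
  | add x y _ _ hx hy => rw [mul_add, add_mul]; exact Submodule.add_mem _ hx hy
  | smul c x _ hx => rw [mul_smul_comm, smul_mul_assoc]; exact Submodule.smul_mem _ _ hx
  | mem x hx =>
    obtain ⟨i, j, f, hf, rfl⟩ := hx
    rw [up, trunc, Finset.sum_mul, Finset.sum_mul]
    apply Submodule.sum_mem
    intro a ha
    rw [Finset.mul_sum]
    apply Submodule.sum_mem
    intro b hb
    by_cases h1 : a = i
    · subst h1
      rw [E_mul_same]
      by_cases h2 : j = b
      · subst h2
        rw [E_mul_same]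
        exact Submodule.subset_span ⟨L + a, j, f, by simp, by simpa using hb, hf, rfl⟩
      · rw [E_mul_ne _ _ _ _ _ _ h2]
        exact Submodule.zero_mem _
    · rw [E_mul_ne _ _ _ _ _ _ h1, zero_mul]
      exact Submodule.zero_mem _

theorem mul_down_mem {M : Set (Y → Y)} (L : ℕ) {P : EndW Y} (hP : P ∈ SM M) :
    trunc L * P * down L ∈ Blk M (Set.Iio L) (Set.Ici L) := by
  induction hP using Submodule.span_induction with
  | zero => rw [mul_zero, zero_mul]; exact Submodule.zero_mem _
  | add x y _ _ hx hy => rw [mul_add, add_mul]; exact Submodule.add_mem _ hx hy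
  | smul c x _ hx => rw [mul_smul_comm, smul_mul_assoc]; exact Submodule.smul_mem _ _ hx
  | mem x hx =>
    obtain ⟨i, j, f, hf, rfl⟩ := hx
    rw [down, trunc, Finset.sum_mul, Finset.sum_mul]
    apply Submodule.sum_mem
    intro a ha
    rw [Finset.mul_sum]
    apply Submodule.sum_mem
    intro b hb
    by_cases h1 : a = i
    · subst h1
      rw [E_mul_same]
      by_cases h2 : j = b
      · subst h2
        rw [E_mul_same]
        exact Submodule.subset_span ⟨a, L + j, f, by simpa using ha, by simp, hf, rfl⟩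
      · rw [E_mul_ne _ _ _ _ _ _ h2]
        exact Submodule.zero_mem _
    · rw [E_mul_ne _ _ _ _ _ _ h1, zero_mul]
      exact Submodule.zero_mem _

theorem toGrp_back (N : LocalGroup (W Y)) (hid) : toGrp (backMon N hid) ≤ N := by
  classical
  rintro g ⟨hg1, hg2⟩
  apply (permClosed_iff _).mp N.closed
  intro B
  obtain ⟨A, hA, hAB⟩ := hg1 B
  obtain ⟨C, hC, hCB⟩ := hg2 (B.image (fun b => g b))
  obtain ⟨L, hL⟩ := exists_low (B ∪ B.image (fun b => g b))
  have hlow1 : ∀ b ∈ B, Low L b := fun b hb => hL b (Finset.mem_union_left _ hb)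
  have hlow2 : ∀ b ∈ B, Low L (g b) :=
    fun b hb => hL _ (Finset.mem_union_right _ (Finset.mem_image_of_mem _ hb))
  have hM := (backMon N hid).id_mem
  have hd1 : ∀ i ∈ Set.Ici L, i ∉ Set.Iio L := by
    intro i hi hi'
    exact absurd (Set.mem_Iio.mp hi') (not_lt.mpr (Set.mem_Ici.mp hi))
  have hd2 : ∀ i ∈ Set.Iio L, i ∉ Set.Ici L := by
    intro i hi hi'
    exact absurd (Set.mem_Iio.mp hi) (not_lt.mpr (Set.mem_Ici.mp hi'))
  obtain ⟨g1, hg1N, hg1'⟩ := Blk_unip N hid hd1 (up_mul_mem L hA)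
  obtain ⟨g2, hg2N, hg2'⟩ := Blk_unip N hid hd2 (mul_down_mem L hC)
  obtain ⟨g3, hg3N, hg3'⟩ := Blk_unip N hid hd2 (down_mem hM L)
  obtain ⟨g4, hg4N, hg4'⟩ := Blk_unip N hid hd1 (up_mem hM L)
  refine ⟨g4 * g3 * g2 * g1, N.mul_mem (N.mul_mem (N.mul_mem hg4N hg3N) hg2N) hg1N,
    fun b hb => ?_⟩
  have e1 : g1 b = b + up L (g b) := by
    rw [hg1', Module.End.mul_apply, Module.End.mul_apply, trunc_low (hlow1 b hb), hAB b hb]
  have e2 : g2 (b + up L (g b)) = up L (g b) := by
    rw [hg2', map_add]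
    simp only [Module.End.mul_apply]
    rw [down_low (hlow1 b hb), map_zero, map_zero, zero_add, down_up (hlow2 b hb)]
    have h3 := hCB _ (Finset.mem_image_of_mem _ hb)
    rw [h3]
    have h4 : g⁻¹ (g b) = b := by simp
    rw [h4, trunc_low (hlow1 b hb)]
    have h5 := char_two b
    calc b + up L (g b) + b = (b + b) + up L (g b) := by abel
      _ = up L (g b) := by rw [h5, zero_add]
  have e3 : g3 (up L (g b)) = up L (g b) + g b := by
    rw [hg3', down_up (hlow2 b hb)]
  have e4 : g4 (up L (g b) + g b) = g b := by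
    rw [hg4', map_add, up_up (hlow2 b hb), zero_add]
    have h5 := char_two (up L (g b))
    calc up L (g b) + g b + up L (g b) = (up L (g b) + up L (g b)) + g b := by abel
      _ = g b := by rw [h5, zero_add]
  simp only [Equiv.Perm.mul_apply]
  rw [e1, e2, e3, e4]

theorem toGrp_completeEmb (y : ℕ ≃ Y) :
    CompleteEmb (toGrp : LocalMonoid Y → LocalGroup (W Y)) := by
  apply CompleteEmb.mk' _ toGrp_mono
  · intro C D h
    exact le_antisymm (toGrp_le y h.le) (toGrp_le y h.ge)
  · rintro S hS g hg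
    refine ⟨Tcl_sInf y S hS _ (fun M hM => ?_), Tcl_sInf y S hS _ (fun M hM => ?_)⟩
    · exact (hg _ ⟨M, hM, rfl⟩).1
    · exact (hg _ ⟨M, hM, rfl⟩).2
  · rintro S ⟨M0, hM0⟩ N hN
    have hE : ∀ M ∈ S, ∀ f ∈ M.carrier, ∀ i j : ℕ, i ≠ j →
        ∃ g ∈ N.carrier, ∀ w, g w = w + E i j f w := by
      intro M hM f hf i j hij
      exact ⟨unip (E i j f) (E_sq hij f), hN M hM (unip_mem_toGrp hf hij), fun w => rfl⟩
    have hid := hE M0 hM0 id M0.id_mem
    refine le_trans (toGrp_mono ?_) (toGrp_back N hid)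
    apply sSup_le
    intro M hM f hf
    exact hE M hM f hf

end Pool.Agent.H146R3
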