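import Mathlib
import Pool.Agent.H146R3.GenericMono

/-!
A loopless relation with a compatible near-unanimity operation of arity `5` which contains a finite
smooth digraph of algebraic length one.
-/

namespace Pool.Agent.H146R3.NULoop

open Pool.Agent.H146R3.GenericMono

/-- The carrier: pairs of distinct rationals. -/
abbrev Pt : Type := {x : ℚ × ℚ // x.1 ≠ x.2}

/-- The swap. -/
def sw (x : Pt) : Pt := ⟨(x.1.2, x.1.1), fun h => x.2 h.symm⟩

theorem sw_sw (x : Pt) : sw (sw x) = x := rfl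

/-- The swap on tuples. -/
def swT (w : Fin 5 → Pt) : Fin 5 → Pt := fun i => sw (w i)

theorem swT_swT (w : Fin 5 → Pt) : swT (swT w) = w := rfl

theorem erase_nonempty (i : Fin 5) : ((Finset.univ : Finset (Fin 5)).erase i).Nonempty := by
  revert i
  decide

/-- The lower bound: the second smallest first coordinate. -/
def lo (w : Fin 5 → Pt) : ℚ :=
  Finset.univ.sup' Finset.univ_nonempty
    (fun i => ((Finset.univ : Finset (Fin 5)).erase i).inf' (erase_nonempty i) (fun j => (w j).1.1))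

/-- The upper bound: the second largest first coordinate. -/
def hi (w : Fin 5 → Pt) : ℚ :=
  Finset.univ.inf' Finset.univ_nonempty
    (fun i => ((Finset.univ : Finset (Fin 5)).erase i).sup' (erase_nonempty i) (fun j => (w j).1.1))

theorem lo_spec (w : Fin 5 → Pt) : ∃ i, ∀ j, j ≠ i → lo w ≤ (w j).1.1 := by
  obtain ⟨i, _, hi⟩ := Finset.exists_mem_eq_sup' (Finset.univ_nonempty (α := Fin 5))
    (fun i => ((Finset.univ : Finset (Fin 5)).erase i).inf' (erase_nonempty i)
      (fun j => (w j).1.1))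
  refine ⟨i, fun j hj => ?_⟩
  unfold lo
  rw [hi]
  exact Finset.inf'_le _ (Finset.mem_erase.mpr ⟨hj, Finset.mem_univ _⟩)

theorem hi_spec (w : Fin 5 → Pt) : ∃ i, ∀ j, j ≠ i → (w j).1.1 ≤ hi w := by
  obtain ⟨i, _, hi'⟩ := Finset.exists_mem_eq_inf' (Finset.univ_nonempty (α := Fin 5))
    (fun i => ((Finset.univ : Finset (Fin 5)).erase i).sup' (erase_nonempty i)
      (fun j => (w j).1.1))
  refine ⟨i, fun j hj => ?_⟩
  unfold hi
  rw [hi']
  exact Finset.le_sup' (fun j => (w j).1.1) (Finset.mem_erase.mpr ⟨hj, Finset.mem_univ _⟩)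

theorem le_lo {w : Fin 5 → Pt} {r : ℚ} (i : Fin 5) (h : ∀ j, j ≠ i → r ≤ (w j).1.1) :
    r ≤ lo w := by
  refine le_trans ?_ (Finset.le_sup' _ (Finset.mem_univ i))
  exact Finset.le_inf' _ _ (fun j hj => h j (Finset.ne_of_mem_erase hj))

theorem hi_le {w : Fin 5 → Pt} {r : ℚ} (i : Fin 5) (h : ∀ j, j ≠ i → (w j).1.1 ≤ r) :
    hi w ≤ r := by
  refine le_trans (Finset.inf'_le _ (Finset.mem_univ i)) ?_
  exact Finset.sup'_le _ _ (fun j hj => h j (Finset.ne_of_mem_erase hj))

theorem lo_mono : Monotone lo := by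
  intro w w' h
  obtain ⟨i, hi⟩ := lo_spec w
  exact le_lo i (fun j hj => le_trans (hi j hj) (h j).1)

theorem hi_mono : Monotone hi := by
  intro w w' h
  obtain ⟨i, hi⟩ := hi_spec w'
  exact hi_le i (fun j hj => le_trans (h j).1 (hi j hj))

theorem exists_avoid4 : ∀ a b c d : Fin 5, ∃ j, j ≠ a ∧ j ≠ b ∧ j ≠ c ∧ j ≠ d := by
  decide

theorem lo_le_hi (w : Fin 5 → Pt) : lo w ≤ hi w := by
  obtain ⟨i, h1⟩ := lo_spec w
  obtain ⟨k, h2⟩ := hi_spec w
  obtain ⟨j, hji, hjk, _, _⟩ := exists_avoid4 i k i k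
  exact le_trans (h1 j hji) (h2 j hjk)

theorem key (w : Fin 5 → Pt) (h1 : lo w = hi w) (h2 : lo (swT w) = hi (swT w)) :
    lo w ≠ lo (swT w) := by
  intro h
  obtain ⟨i, hi1⟩ := lo_spec w
  obtain ⟨k, hk1⟩ := hi_spec w
  obtain ⟨i', hi2⟩ := lo_spec (swT w)
  obtain ⟨k', hk2⟩ := hi_spec (swT w)
  obtain ⟨j, hj1, hj2, hj3, hj4⟩ := exists_avoid4 i k i' k'
  have e1 : (w j).1.1 = lo w := le_antisymm (by rw [h1]; exact hk1 j hj2) (hi1 j hj1)
  have e2 : (w j).1.2 = lo (swT w) :=
    le_antisymm (by rw [h2]; exact hk2 j hj4) (hi2 j hj3)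
  exact (w j).2 (by rw [e1, e2, h])

theorem lo_nu (x y : Pt) (i : Fin 5) : lo (Function.update (fun _ => x) i y) = x.1.1 := by
  apply le_antisymm
  · obtain ⟨k, hk⟩ := lo_spec (Function.update (fun _ => x) i y)
    obtain ⟨j, h1, h2, _, _⟩ := exists_avoid4 i k i k
    have := hk j h2
    rwa [Function.update_of_ne h1] at this
  · apply le_lo i
    intro j hj
    rw [Function.update_of_ne hj]

theorem hi_nu (x y : Pt) (i : Fin 5) : hi (Function.update (fun _ => x) i y) = x.1.1 := by
  apply le_antisymm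
  · apply hi_le i
    intro j hj
    rw [Function.update_of_ne hj]
  · obtain ⟨k, hk⟩ := hi_spec (Function.update (fun _ => x) i y)
    obtain ⟨j, h1, h2, _, _⟩ := exists_avoid4 i k i k
    have := hk j h2
    rwa [Function.update_of_ne h1] at this

theorem swT_update (x y : Pt) (i : Fin 5) :
    swT (Function.update (fun _ => x) i y) = Function.update (fun _ => sw x) i (sw y) := by
  funext j
  unfold swT
  by_cases h : j = i
  · subst h; simp
  · simp [Function.update_of_ne h]

/-- There is a generic function. -/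
theorem exists_g : ∃ g : (Fin 5 → Pt) → ℚ, Monotone g ∧ (∀ w, g w ≠ g (swT w)) ∧
    (∀ (x y : Pt) (i : Fin 5), g (Function.update (fun _ => x) i y) = x.1.1) := by
  obtain ⟨g, hmono, htriv, hne, hinj⟩ := exists_generic (forb := fun w => lo (swT w))
    lo_mono hi_mono lo_le_hi
  refine ⟨g, hmono, ?_, ?_⟩
  · intro w
    have hww : w ≠ swT w := by
      intro h
      have h0 := congrFun h 0
      have h1 : (w 0).1.1 = (w 0).1.2 := by
        conv_lhs => rw [h0]
        rfl
      exact (w 0).2 h1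
    rcases (lo_le_hi w).lt_or_eq with h | h
    · rcases (lo_le_hi (swT w)).lt_or_eq with h' | h'
      · exact hinj w (swT w) hww h h'
      · rw [htriv (swT w) h']
        exact hne w h
    · rcases (lo_le_hi (swT w)).lt_or_eq with h' | h'
      · rw [htriv w h]
        have := hne (swT w) h'
        simp only [swT_swT] at this
        exact this.symm
      · rw [htriv w h, htriv (swT w) h']
        exact key w h h'
  · intro x y i
    rw [htriv _ (by rw [lo_nu, hi_nu]), lo_nu]

/-- The relation. -/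
def Rel (x y : Pt) : Prop := x.1.2 ≤ y.1.1 ∧ x.1.1 ≤ y.1.2

theorem not_rel_self (x : Pt) : ¬ Rel x x := fun h => x.2 (le_antisymm h.2 h.1)

/-- There is a near-unanimity operation of arity `5` compatible with the relation. -/
theorem exists_f : ∃ f : (Fin 5 → Pt) → Pt,
    (∀ (x y : Pt) (i : Fin 5), f (Function.update (fun _ => x) i y) = x) ∧
    (∀ x y : Fin 5 → Pt, (∀ i, Rel (x i) (y i)) → Rel (f x) (f y)) := by
  obtain ⟨g, hmono, hne, hnu⟩ := exists_g
  refine ⟨fun w => ⟨(g w, g (swT w)), hne w⟩, ?_, ?_⟩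
  · intro x y i
    apply Subtype.ext
    apply Prod.ext
    · exact hnu x y i
    · show g (swT (Function.update (fun _ => x) i y)) = x.1.2
      rw [swT_update, hnu]
      rfl
  · intro x y h
    constructor
    · show g (swT x) ≤ g y
      apply hmono
      intro i
      exact ⟨(h i).1, (h i).2⟩
    · show g x ≤ g (swT y)
      apply hmono
      intro i
      exact ⟨(h i).2, (h i).1⟩

/-- four points -/
def pa : Pt := ⟨(0, 1), by norm_num⟩
/-- four points -/
def pb : Pt := ⟨(1, 0), by norm_num⟩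
/-- four points -/
def pc : Pt := ⟨(2, 3), by norm_num⟩
/-- four points -/
def pd : Pt := ⟨(3, 2), by norm_num⟩

theorem not_main :
    ¬ (∀ (A : Type) (R : A → A → Prop) (S : Finset (A × A)),
      (∀ p ∈ S, R p.1 p.2) →
      (∀ p ∈ S, (∃ q ∈ S, q.2 = p.1) ∧ (∃ q ∈ S, q.1 = p.2)) →
      (∃ (k : ℕ) (v : ℕ → A) (e : ℕ → ℤ), v k = v 0 ∧
        (∀ i < k, (e i = 1 ∧ (v i, v (i + 1)) ∈ S) ∨ (e i = -1 ∧ (v (i + 1), v i) ∈ S)) ∧
        ∑ i ∈ Finset.range k, e i = 1) →
      ∀ (n : ℕ) (f : (Fin n → A) → A), 3 ≤ n →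
        (∀ (x y : A) (i : Fin n), f (Function.update (fun _ => x) i y) = x) →
        (∀ (x y : Fin n → A), (∀ i, R (x i) (y i)) → R (f x) (f y)) →
        ∃ a : A, R a a) := by
  classical
  intro H
  obtain ⟨f, hf1, hf2⟩ := exists_f
  have hab : Rel pa pb := by constructor <;> norm_num [pa, pb]
  have hba : Rel pb pa := by constructor <;> norm_num [pa, pb]
  have hcd : Rel pc pd := by constructor <;> norm_num [pc, pd]
  have hdc : Rel pd pc := by constructor <;> norm_num [pc, pd]
  have hac : Rel pa pc := by constructor <;> norm_num [pa, pc]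
  have had : Rel pa pd := by constructor <;> norm_num [pa, pd]
  obtain ⟨x, hx⟩ := H Pt Rel {(pa, pb), (pb, pa), (pc, pd), (pd, pc), (pa, pc), (pa, pd)}
    (by
      intro p hp
      simp only [Finset.mem_insert, Finset.mem_singleton] at hp
      rcases hp with rfl | rfl | rfl | rfl | rfl | rfl <;> assumption)
    (by
      intro p hp
      simp only [Finset.mem_insert, Finset.mem_singleton] at hp
      rcases hp with rfl | rfl | rfl | rfl | rfl | rfl
      · exact ⟨⟨(pb, pa), by simp, rfl⟩, ⟨(pb, pa), by simp, rfl⟩⟩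
      · exact ⟨⟨(pa, pb), by simp, rfl⟩, ⟨(pa, pb), by simp, rfl⟩⟩
      · exact ⟨⟨(pd, pc), by simp, rfl⟩, ⟨(pd, pc), by simp, rfl⟩⟩
      · exact ⟨⟨(pc, pd), by simp, rfl⟩, ⟨(pc, pd), by simp, rfl⟩⟩
      · exact ⟨⟨(pb, pa), by simp, rfl⟩, ⟨(pc, pd), by simp, rfl⟩⟩
      · exact ⟨⟨(pb, pa), by simp, rfl⟩, ⟨(pd, pc), by simp, rfl⟩⟩)
    (by
      refine ⟨3, fun i => if i = 0 then pa else if i = 1 then pc else if i = 2 then pd else pa,
        fun i => if i < 2 then 1 else -1, ?_, ?_, ?_⟩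
      · simp
      · intro i hi
        interval_cases i
        · left; simp
        · left; simp
        · right; simp
      · simp [Finset.sum_range_succ])
    5 f (by norm_num) hf1 hf2
  exact not_rel_self x hx

end Pool.Agent.H146R3.NULoop
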